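import Mathlib

namespace Pool.Agent.Hhelper81.CunninghamAux

/-- the chain identity `c_{i+j}(p) = c_j(c_i(p))`. -/
lemma shift (p i j : ℕ) :
    2 ^ j * ((2 ^ i * (p + 1) - 1) + 1) - 1 = 2 ^ (i + j) * (p + 1) - 1 := by
  have h : 1 ≤ 2 ^ i * (p + 1) := Nat.mul_pos (by positivity) (by omega)
  have h2 : 2 ^ i * (p + 1) - 1 + 1 = 2 ^ i * (p + 1) := by omega
  rw [h2, pow_add]; congr 1; ring

/-- every chain stops. -/
lemma exists_stop (p : ℕ) (hp : p.Prime) : ∃ n, ¬ Nat.Prime (2 ^ n * (p + 1) - 1) := by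
  -- first reduce to an odd prime
  by_contra hcon
  push Not at hcon
  have h1 := hcon 1
  set q := 2 ^ 1 * (p + 1) - 1 with hq
  have hq2 : q ≠ 2 := by omega
  have hq0 : 2 < q := by have := hp.two_le; omega
  have hcop : Nat.Coprime 2 q := by
    rw [Nat.coprime_primes Nat.prime_two h1]; omega
  have hfer : 2 ^ (q - 1) ≡ 1 [MOD q] := by
    have := Nat.ModEq.pow_totient hcop
    rwa [Nat.totient_prime h1] at this
  -- q ∣ c_{q-1}(q)
  have hdvd : q ∣ 2 ^ (q - 1) * (q + 1) - 1 := by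
    have e1 : 2 ^ (q - 1) * (q + 1) ≡ 1 * (0 + 1) [MOD q] := by
      refine Nat.ModEq.mul hfer ?_
      exact Nat.ModEq.add_right 1 ((Nat.modEq_zero_iff_dvd).2 dvd_rfl)
    exact (Nat.modEq_iff_dvd' (Nat.mul_pos (by positivity) (by omega))).1 e1.symm
  have h2 := hcon (1 + (q - 1))
  rw [← shift p 1 (q - 1)] at h2
  change Nat.Prime (2 ^ (q - 1) * (q + 1) - 1) at h2
  have h3 : q = 2 ^ (q - 1) * (q + 1) - 1 :=
    ((Nat.prime_dvd_prime_iff_eq h1 h2).1 hdvd)
  have h4 : 2 ≤ 2 ^ (q - 1) := by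
    calc 2 = 2 ^ 1 := by norm_num
      _ ≤ 2 ^ (q - 1) := Nat.pow_le_pow_right (by norm_num) (by omega)
  have h5 : 2 * (q + 1) ≤ 2 ^ (q - 1) * (q + 1) := Nat.mul_le_mul_right _ h4
  omega

/-- From a chain of length at least `k ≥ 1` starting at `p` one reaches a prime `p' ≥ p`
starting a chain of exact length `k`. -/
lemma exists_exact (k p : ℕ) (hk : 0 < k) (hp : p.Prime) (h : ∀ i : ℕ, i < k → Nat.Prime (2 ^ i * (p + 1) - 1)) :
    ∃ p', p ≤ p' ∧ p'.Prime ∧ (∀ i : ℕ, i < k → Nat.Prime (2 ^ i * (p' + 1) - 1)) ∧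
      ¬ Nat.Prime (2 ^ k * (p' + 1) - 1) ∧ 1 < 2 ^ k * (p' + 1) - 1 := by
  classical
  have hex := exists_stop p hp
  set n := Nat.find hex with hn
  have hns : ¬ Nat.Prime (2 ^ n * (p + 1) - 1) := Nat.find_spec hex
  have hmin : ∀ m, m < n → Nat.Prime (2 ^ m * (p + 1) - 1) := by
    intro m hm
    by_contra hc
    exact Nat.find_min hex hm hc
  have hkn : k ≤ n := by
    by_contra hc
    push Not at hc
    exact hns (h n hc)
  refine ⟨2 ^ (n - k) * (p + 1) - 1, ?_, ?_, ?_, ?_, ?_⟩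
  · have : 1 * (p + 1) ≤ 2 ^ (n - k) * (p + 1) := Nat.mul_le_mul_right _ Nat.one_le_two_pow
    omega
  · exact hmin _ (by omega)
  · intro i hi
    rw [shift]
    exact hmin _ (by omega)
  · rw [shift]
    have : n - k + k = n := by omega
    rw [this]; exact hns
  · rw [shift]
    have e1 : 1 * (p + 1) ≤ 2 ^ (n - k + k) * (p + 1) :=
      Nat.mul_le_mul_right _ Nat.one_le_two_pow
    have e2 : 2 * (p + 1) ≤ 2 ^ (n - k + k) * (p + 1) := by
      apply Nat.mul_le_mul_right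
      calc 2 = 2 ^ 1 := by norm_num
        _ ≤ 2 ^ (n - k + k) := Nat.pow_le_pow_right (by norm_num) (by omega)
    have := hp.two_le
    omega

end Pool.Agent.Hhelper81.CunninghamAux
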