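import Mathlib
import Pool.Agent.Hhelper81.CunninghamAux

namespace Pool.Agent.Hhelper81.ArbLong

open Pool.Agent.Hhelper81.CunninghamAux

/-- The conjecture (for every `k ≥ 1` infinitely many primes start a first-kind Cunningham chain
of exact length `k`) holds if and only if chains of every length exist. -/
theorem result :
    (∀ k : ℕ, 0 < k →
      Set.Infinite {p : ℕ | p.Prime ∧
        (∀ i : ℕ, i < k → Nat.Prime (2 ^ i * (p + 1) - 1)) ∧
        ¬ Nat.Prime (2 ^ k * (p + 1) - 1) ∧ 1 < 2 ^ k * (p + 1) - 1}) ↔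
    (∀ k : ℕ, ∃ p : ℕ, p.Prime ∧ ∀ i : ℕ, i < k → Nat.Prime (2 ^ i * (p + 1) - 1)) := by
  constructor
  · intro h k
    obtain ⟨p, hp, h2, _⟩ := (h (k + 1) (Nat.succ_pos k)).nonempty
    exact ⟨p, hp, fun i hi => h2 i (by omega)⟩
  · intro h k hk
    rw [Set.infinite_iff_exists_gt]
    intro N
    -- the chains starting at primes `≤ N` have bounded length
    classical
    have hstop : ∀ q : ℕ, ∃ n, q.Prime → ¬ Nat.Prime (2 ^ n * (q + 1) - 1) := by
      intro q
      by_cases hq : q.Prime
      · obtain ⟨n, hn⟩ := exists_stop q hq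
        exact ⟨n, fun _ => hn⟩
      · exact ⟨0, fun h => absurd h hq⟩
    choose f hf using hstop
    set K := k + (Finset.range (N + 1)).sup f + 1 with hK
    obtain ⟨p, hp, hlong⟩ := h K
    have hpN : N < p := by
      by_contra hc
      push Not at hc
      have h1 : f p ≤ (Finset.range (N + 1)).sup f :=
        Finset.le_sup (f := f) (Finset.mem_range.2 (by omega))
      exact hf p hp (hlong (f p) (by omega))
    obtain ⟨p', hpp', hp', h1, h2, h3⟩ :=
      exists_exact k p hk hp (fun i hi => hlong i (by omega))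
    exact ⟨p', ⟨hp', h1, h2, h3⟩, by omega⟩

end Pool.Agent.Hhelper81.ArbLong
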