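import Mathlib
import Pool.Agent.Hhelper81.CunninghamAux

namespace Pool.Agent.Hhelper81.ExactIff

open Pool.Agent.Hhelper81.CunninghamAux

/-- For every `k ≥ 1`: infinitely many primes start a first-kind Cunningham chain of exact
length `k` if and only if infinitely many primes `p` have `c_0(p), ..., c_{k-1}(p)` prime. -/
theorem result : ∀ k : ℕ, 0 < k →
    (Set.Infinite {p : ℕ | p.Prime ∧
        (∀ i : ℕ, i < k → Nat.Prime (2 ^ i * (p + 1) - 1)) ∧
        ¬ Nat.Prime (2 ^ k * (p + 1) - 1) ∧ 1 < 2 ^ k * (p + 1) - 1} ↔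
      Set.Infinite {p : ℕ | p.Prime ∧ ∀ i : ℕ, i < k → Nat.Prime (2 ^ i * (p + 1) - 1)}) := by
  intro k hk
  constructor
  · intro h
    exact h.mono (fun p hp => ⟨hp.1, hp.2.1⟩)
  · intro h
    rw [Set.infinite_iff_exists_gt] at h ⊢
    intro N
    obtain ⟨p, ⟨hp, hlong⟩, hpN⟩ := h N
    obtain ⟨p', hpp', hp', h1, h2, h3⟩ := exists_exact k p hk hp hlong
    exact ⟨p', ⟨hp', h1, h2, h3⟩, by omega⟩

end Pool.Agent.Hhelper81.ExactIff
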