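import Mathlib

/-!
# Number of classes of the equivalence relation generated by a relation

`ncl r` is the number of classes of the equivalence relation generated by `r`.
Adding one pair either keeps it or lowers it by one.
-/

namespace Pool.Agent.QuotCard

variable {α : Type*}

/-- number of classes of the equivalence relation generated by `r` -/
noncomputable def ncl (r : α → α → Prop) : ℕ := Nat.card (Quot r)

/-- `x` and `y` are equivalent modulo `r` -/
def eqv (r : α → α → Prop) (x y : α) : Prop := Quot.mk r x = Quot.mk r y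

/-- add the pair `(a, b)` to `r` -/
def addP (r : α → α → Prop) (a b : α) (x y : α) : Prop := r x y ∨ (x = a ∧ y = b)

lemma eqv_refl (r : α → α → Prop) (x : α) : eqv r x x := rfl

lemma eqv_symm {r : α → α → Prop} {x y : α} (h : eqv r x y) : eqv r y x := h.symm

lemma eqv_trans {r : α → α → Prop} {x y z : α} (h : eqv r x y) (h' : eqv r y z) : eqv r x z :=
  h.trans h'

lemma eqv_of {r : α → α → Prop} {x y : α} (h : r x y) : eqv r x y := Quot.sound h

/-- if `r` is contained in the equivalence relation generated by `s`, then so is the one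
generated by `r` -/
lemma eqv_mono {r s : α → α → Prop} (h : ∀ x y, r x y → eqv s x y) {x y : α}
    (hxy : eqv r x y) : eqv s x y := by
  have := congrArg (Quot.lift (fun z => Quot.mk s z) (fun a b hab => h a b hab)) hxy
  exact this

lemma ncl_congr {r s : α → α → Prop} (h : ∀ x y, r x y → eqv s x y)
    (h' : ∀ x y, s x y → eqv r x y) : ncl r = ncl s := by
  unfold ncl
  refine Nat.card_congr ⟨Quot.lift (fun z => Quot.mk s z) (fun a b hab => h a b hab),
    Quot.lift (fun z => Quot.mk r z) (fun a b hab => h' a b hab), ?_, ?_⟩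
  · rintro ⟨x⟩; rfl
  · rintro ⟨x⟩; rfl

lemma ncl_le [Finite α] {r s : α → α → Prop} (h : ∀ x y, r x y → eqv s x y) :
    ncl s ≤ ncl r := by
  unfold ncl
  refine Nat.card_le_card_of_surjective
    (Quot.lift (fun z => Quot.mk s z) (fun a b hab => h a b hab)) ?_
  rintro ⟨x⟩
  exact ⟨Quot.mk r x, rfl⟩

lemma ncl_addP_of_eqv {r : α → α → Prop} {a b : α} (h : eqv r a b) :
    ncl (addP r a b) = ncl r := by
  refine ncl_congr ?_ ?_
  · rintro x y (hxy | ⟨rfl, rfl⟩)
    · exact eqv_of hxy
    · exact h
  · intro x y hxy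
    exact eqv_of (Or.inl hxy)

/-- classes modulo `addP r a b`: either the same class modulo `r` or both in the classes of
`a`, `b` -/
lemma eqv_addP_iff {r : α → α → Prop} {a b x y : α} :
    eqv (addP r a b) x y ↔
      eqv r x y ∨ ((eqv r x a ∨ eqv r x b) ∧ (eqv r y a ∨ eqv r y b)) := by
  constructor
  · intro h
    have key : ∀ u v : α, Relation.EqvGen (addP r a b) u v →
        eqv r u v ∨ ((eqv r u a ∨ eqv r u b) ∧ (eqv r v a ∨ eqv r v b)) := by
      intro u v huv
      induction huv with
      | rel u v h =>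
        rcases h with h | ⟨rfl, rfl⟩
        · exact Or.inl (eqv_of h)
        · exact Or.inr ⟨Or.inl (eqv_refl r _), Or.inr (eqv_refl r _)⟩
      | refl u => exact Or.inl (eqv_refl r _)
      | symm u v _ ih =>
        rcases ih with ih | ⟨h1, h2⟩
        · exact Or.inl (eqv_symm ih)
        · exact Or.inr ⟨h2, h1⟩
      | trans u v w _ _ ih1 ih2 =>
        rcases ih1 with ih1 | ⟨h1, h2⟩
        · rcases ih2 with ih2 | ⟨h3, h4⟩
          · exact Or.inl (eqv_trans ih1 ih2)
          · refine Or.inr ⟨?_, h4⟩
            rcases h3 with h3 | h3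
            · exact Or.inl (eqv_trans ih1 h3)
            · exact Or.inr (eqv_trans ih1 h3)
        · rcases ih2 with ih2 | ⟨h3, h4⟩
          · refine Or.inr ⟨h1, ?_⟩
            rcases h2 with h2 | h2
            · exact Or.inl (eqv_trans (eqv_symm ih2) h2)
            · exact Or.inr (eqv_trans (eqv_symm ih2) h2)
          · exact Or.inr ⟨h1, h4⟩
    exact key x y (Quot.eqvGen_exact h)
  · have hab : eqv (addP r a b) a b := eqv_of (Or.inr ⟨rfl, rfl⟩)
    have up : ∀ u v : α, eqv r u v → eqv (addP r a b) u v := fun u v h =>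
      eqv_mono (fun x y hxy => eqv_of (Or.inl hxy)) h
    rintro (h | ⟨h1, h2⟩)
    · exact up _ _ h
    · have e1 : eqv (addP r a b) x a := by
        rcases h1 with h1 | h1
        · exact up _ _ h1
        · exact eqv_trans (up _ _ h1) (eqv_symm hab)
      have e2 : eqv (addP r a b) y a := by
        rcases h2 with h2 | h2
        · exact up _ _ h2
        · exact eqv_trans (up _ _ h2) (eqv_symm hab)
      exact eqv_trans e1 (eqv_symm e2)

lemma ncl_addP_of_not_eqv [Finite α] {r : α → α → Prop} {a b : α} (h : ¬ eqv r a b) :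
    ncl (addP r a b) + 1 = ncl r := by
  classical
  have : Finite (Quot r) := Finite.of_surjective (Quot.mk r) Quot.mk_surjective
  have : Fintype (Quot r) := Fintype.ofFinite _
  have e : Quot (addP r a b) ≃ {c : Quot r // c ≠ Quot.mk r b} := by
    refine (Equiv.ofBijective (fun c : {c : Quot r // c ≠ Quot.mk r b} =>
      (Quot.lift (fun z => Quot.mk (addP r a b) z)
        (fun x y hxy => Quot.sound (Or.inl hxy)) c.1 : Quot (addP r a b))) ⟨?_, ?_⟩).symm
    · rintro ⟨⟨x⟩, hx⟩ ⟨⟨y⟩, hy⟩ hxy
      have hxy' : eqv (addP r a b) x y := hxy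
      rw [eqv_addP_iff] at hxy'
      rcases hxy' with h1 | ⟨h1, h2⟩
      · exact Subtype.ext h1
      · have hx' : eqv r x a := by
          rcases h1 with h1 | h1
          · exact h1
          · exact absurd h1 hx
        have hy' : eqv r y a := by
          rcases h2 with h2 | h2
          · exact h2
          · exact absurd h2 hy
        exact Subtype.ext (eqv_trans hx' (eqv_symm hy'))
    · rintro ⟨x⟩
      by_cases hx : eqv r x b
      · refine ⟨⟨Quot.mk r a, fun hh => h hh⟩, ?_⟩
        change eqv (addP r a b) a x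
        rw [eqv_addP_iff]
        exact Or.inr ⟨Or.inl (eqv_refl r _), Or.inr hx⟩
      · exact ⟨⟨Quot.mk r x, hx⟩, rfl⟩
  unfold ncl
  rw [Nat.card_congr e, Nat.card_eq_fintype_card, Nat.card_eq_fintype_card]
  have : Fintype.card {c : Quot r // c ≠ Quot.mk r b} = Fintype.card (Quot r) - 1 := by
    rw [Fintype.card_subtype_compl]
    simp
  rw [this]
  have hpos : 0 < Fintype.card (Quot r) := Fintype.card_pos_iff.mpr ⟨Quot.mk r a⟩
  omega

end Pool.Agent.QuotCard
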