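import Mathlib
import Pool.Agent.Hhelper81.QuotCard

/-!
# Switching two pairs of a fixed point free involution

`θ`, `τ` fixed point free involutions on a finite type.  The classes of the relation generated
by them are cycles.  Switching means: the pairs `{p, θ p}`, `{q, θ q}` of `θ` are replaced by
`{q, θ p}`, `{p, θ q}`.
-/

namespace Pool.Agent.QuotCard

variable {Φ : Type*}

/-- fixed point free involution -/
structure FInv (θ : Φ → Φ) : Prop where
  inv : ∀ x, θ (θ x) = x
  ne : ∀ x, θ x ≠ x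

/-- the relation given by two involutions -/
def rel2 (θ τ : Φ → Φ) (x y : Φ) : Prop := θ x = y ∨ τ x = y

/-- the relation given by three involutions -/
def rel3 (θ τ ρ : Φ → Φ) (x y : Φ) : Prop := θ x = y ∨ τ x = y ∨ ρ x = y

/-- the relation given by `τ` everywhere and by `θ` off `S` -/
def relOff (θ : Φ → Φ) (r : Φ → Φ → Prop) (S : Φ → Prop) (x y : Φ) : Prop :=
  r x y ∨ (θ x = y ∧ ¬ S x)

lemma FInv.inj {θ : Φ → Φ} (h : FInv θ) {x y : Φ} (e : θ x = θ y) : x = y := by
  rw [← h.inv x, e, h.inv]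

/-- **Path lemma.**  In the graph of `τ` and of `θ` off the `θ`-closed set `S`, the class of
`p ∈ S` contains exactly one other member of `S`. -/
theorem path_lemma [Finite Φ] {θ τ : Φ → Φ} (hθ : FInv θ) (hτ : FInv τ) {S : Φ → Prop}
    (hS : ∀ x, S x → S (θ x)) {p : Φ} (hp : S p) :
    ∃ s, S s ∧ s ≠ p ∧ eqv (relOff θ (fun x y => τ x = y) S) p s ∧
      ∀ t, S t → eqv (relOff θ (fun x y => τ x = y) S) p t → t = p ∨ t = s := by
  classical
  set b := relOff θ (fun x y => τ x = y) S with hb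
  set a : ℕ → Φ := fun i => (fun x => θ (τ x))^[i] p with ha
  have a0 : a 0 = p := rfl
  have asucc : ∀ i, a (i + 1) = θ (τ (a i)) := fun i => by
    simp only [ha, Function.iterate_succ_apply']
  have hSiff : ∀ x, S (θ x) ↔ S x := fun x =>
    ⟨fun h => by have := hS _ h; rwa [hθ.inv] at this, hS x⟩
  have hex : ∃ i, S (τ (a i)) := by
    by_contra hno
    push Not at hno
    have hnot : ∀ i, ¬ S (a (i + 1)) := fun i h => hno i ((hSiff _).1 (asucc i ▸ h))
    -- the iteration is injective and eventually periodic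
    have hinj : Function.Injective (fun x => θ (τ x)) := fun x y h => hτ.inj (hθ.inj h)
    obtain ⟨m, hm, hmp⟩ : ∃ m, 0 < m ∧ (fun x => θ (τ x))^[m] p = p := by
      have := Function.Injective.mem_periodicPts hinj p
      obtain ⟨m, hm, hmp⟩ := this
      exact ⟨m, hm, hmp⟩
    obtain ⟨m', rfl⟩ := Nat.exists_eq_succ_of_ne_zero hm.ne'
    exact hnot m' (by rw [ha]; simpa [hmp] using hp)
  set N := Nat.find hex with hN
  have hNS : S (τ (a N)) := Nat.find_spec hex
  have hmin : ∀ i, i < N → ¬ S (τ (a i)) := fun i hi => Nat.find_min hex hi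
  have haS : ∀ i, 0 < i → i ≤ N → ¬ S (a i) := by
    intro i hi hiN h
    obtain ⟨j, rfl⟩ := Nat.exists_eq_succ_of_ne_zero hi.ne'
    rw [Nat.succ_eq_add_one, asucc] at h
    exact hmin j (by omega) ((hSiff _).1 h)
  -- connectedness of the path
  have hconn : ∀ i, i ≤ N → eqv b p (a i) := by
    intro i
    induction i with
    | zero => intro _; exact eqv_refl _ _
    | succ i ih =>
      intro hi
      have h1 := ih (by omega)
      have h2 : eqv b (a i) (τ (a i)) := eqv_of (Or.inl rfl)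
      have h3 : eqv b (τ (a i)) (a (i + 1)) :=
        eqv_of (Or.inr ⟨(asucc i).symm, hmin i (by omega)⟩)
      exact eqv_trans h1 (eqv_trans h2 h3)
  have hconn' : eqv b p (τ (a N)) := eqv_trans (hconn N le_rfl) (eqv_of (Or.inl rfl))
  -- the path is closed
  have hclosed1 : ∀ x y, b x y → (∃ i, i ≤ N ∧ (x = a i ∨ x = τ (a i))) →
      (∃ i, i ≤ N ∧ (y = a i ∨ y = τ (a i))) := by
    rintro x y (hxy | ⟨hxy, hx⟩) ⟨i, hi, hxi⟩
    · rcases hxi with rfl | rfl
      · exact ⟨i, hi, Or.inr hxy.symm⟩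
      · exact ⟨i, hi, Or.inl (by rw [← hxy, hτ.inv])⟩
    · rcases hxi with rfl | rfl
      · rcases Nat.eq_zero_or_pos i with rfl | hpos
        · exact absurd (a0 ▸ hp) hx
        · obtain ⟨j, rfl⟩ := Nat.exists_eq_succ_of_ne_zero hpos.ne'
          refine ⟨j, by omega, Or.inr ?_⟩
          rw [← hxy, Nat.succ_eq_add_one, asucc, hθ.inv]
      · have hiN : i < N := by
          rcases lt_or_eq_of_le hi with h | h
          · exact h
          · exact absurd (h ▸ hNS) hx
        exact ⟨i + 1, hiN, Or.inl (by rw [asucc, hxy])⟩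
  have hclosed2 : ∀ x y, b x y → b y x := by
    rintro x y (hxy | ⟨hxy, hx⟩)
    · exact Or.inl (show τ y = x by rw [← hxy, hτ.inv])
    · refine Or.inr ⟨by rw [← hxy, hθ.inv], ?_⟩
      rw [← hxy, hSiff]; exact hx
  have hclass : ∀ t, eqv b p t → ∃ i, i ≤ N ∧ (t = a i ∨ t = τ (a i)) := by
    intro t ht
    have := congrArg (Quot.lift (fun z => (∃ i, i ≤ N ∧ (z = a i ∨ z = τ (a i)) : Prop))
      (fun x y hxy => propext ⟨hclosed1 x y hxy, hclosed1 y x (hclosed2 x y hxy)⟩)) ht
    simp only at this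
    rw [← this]
    exact ⟨0, Nat.zero_le _, Or.inl rfl⟩
  refine ⟨τ (a N), hNS, ?_, hconn', ?_⟩
  · -- the other end is different
    intro hEq
    have hrev : ∀ i, i ≤ N → τ (a i) = a (N - i) := by
      intro i
      induction i with
      | zero =>
        intro _
        rw [a0, Nat.sub_zero, ← hEq, hτ.inv]
      | succ i ih =>
        intro hi
        have h1 := ih (by omega)
        rw [asucc, h1]
        obtain ⟨k, hk⟩ : ∃ k, N - i = k + 1 := ⟨N - i - 1, by omega⟩
        rw [hk, asucc, hθ.inv, hτ.inv]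
        congr 1
        omega
    rcases Nat.even_or_odd' N with ⟨j, hj | hj⟩
    · have h1 := hrev j (by omega)
      rw [show N - j = j by omega] at h1
      exact hτ.ne _ h1
    · have h1 := hrev j (by omega)
      rw [show N - j = j + 1 by omega, asucc] at h1
      exact hθ.ne _ h1.symm
  · intro t htS ht
    obtain ⟨i, hi, hti | hti⟩ := hclass t ht
    · rcases Nat.eq_zero_or_pos i with rfl | hpos
      · left; rw [hti]; rfl
      · exact absurd (hti ▸ htS) (haS i hpos hi)
    · rcases lt_or_eq_of_le hi with h | h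
      · exact absurd (hti ▸ htS) (hmin i h)
      · right; rw [hti, h]

/-! ### The switch -/

/-- switch `p` and `q` in the involution `θ` -/
noncomputable def sw (θ : Φ → Φ) (p q : Φ) (x : Φ) : Φ := by
  classical exact Equiv.swap p q (θ (Equiv.swap p q x))

lemma sw_finv {θ : Φ → Φ} (hθ : FInv θ) (p q : Φ) : FInv (sw θ p q) := by
  classical
  constructor
  · intro x; simp [sw, hθ.inv]
  · intro x h
    have h' : θ (Equiv.swap p q x) = Equiv.swap p q x := by
      have := congrArg (Equiv.swap p q) h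
      simpa [sw] using this
    exact hθ.ne _ h'


/-- `θ` together with a relation -/
def relF (θ : Φ → Φ) (r : Φ → Φ → Prop) (x y : Φ) : Prop := θ x = y ∨ r x y

/-- the four flags of a switch -/
def four (θ : Φ → Φ) (p q : Φ) (x : Φ) : Prop := x = p ∨ x = θ p ∨ x = q ∨ x = θ q

lemma four_closed {θ : Φ → Φ} (hθ : FInv θ) (p q x : Φ) (h : four θ p q x) :
    four θ p q (θ x) := by
  rcases h with rfl | rfl | rfl | rfl
  · exact Or.inr (Or.inl rfl)
  · exact Or.inl (hθ.inv _)
  · exact Or.inr (Or.inr (Or.inr rfl))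
  · exact Or.inr (Or.inr (Or.inl (hθ.inv _)))

lemma sw_apply_off {θ : Φ → Φ} (hθ : FInv θ) {p q x : Φ} (h : ¬ four θ p q x) :
    sw θ p q x = θ x := by
  classical
  have h1 : x ≠ p := fun e => h (Or.inl e)
  have h2 : x ≠ q := fun e => h (Or.inr (Or.inr (Or.inl e)))
  have h3 : θ x ≠ p := fun e => h (Or.inr (Or.inl (by rw [← e, hθ.inv])))
  have h4 : θ x ≠ q := fun e => h (Or.inr (Or.inr (Or.inr (by rw [← e, hθ.inv]))))
  unfold sw
  rw [Equiv.swap_apply_of_ne_of_ne h1 h2, Equiv.swap_apply_of_ne_of_ne h3 h4]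

lemma sw_p {θ : Φ → Φ} (hθ : FInv θ) {p q : Φ} (h' : q ≠ θ p) :
    sw θ p q p = θ q := by
  classical
  have h3 : θ q ≠ p := fun e => h' (by rw [← e, hθ.inv])
  unfold sw
  rw [Equiv.swap_apply_left, Equiv.swap_apply_of_ne_of_ne h3 (hθ.ne q)]

lemma sw_q {θ : Φ → Φ} (hθ : FInv θ) {p q : Φ} (h' : q ≠ θ p) :
    sw θ p q q = θ p := by
  classical
  unfold sw
  rw [Equiv.swap_apply_right, Equiv.swap_apply_of_ne_of_ne (hθ.ne p) h'.symm]

lemma sw_p' {θ : Φ → Φ} (hθ : FInv θ) {p q : Φ} (h' : q ≠ θ p) :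
    sw θ p q (θ p) = q := by
  have := (sw_finv hθ p q).inv q
  rwa [sw_q hθ h'] at this

lemma sw_q' {θ : Φ → Φ} (hθ : FInv θ) {p q : Φ} (h' : q ≠ θ p) :
    sw θ p q (θ q) = p := by
  have := (sw_finv hθ p q).inv p
  rwa [sw_p hθ h'] at this

/-- base relation of a switch -/
def base (θ : Φ → Φ) (r : Φ → Φ → Prop) (p q : Φ) : Φ → Φ → Prop :=
  relOff θ r (four θ p q)

lemma addP_left {r : Φ → Φ → Prop} {a b x y : Φ} (h : eqv r x y) : eqv (addP r a b) x y :=
  eqv_mono (fun _ _ hxy => eqv_of (Or.inl hxy)) h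

lemma addP_pair {r : Φ → Φ → Prop} {a b : Φ} : eqv (addP r a b) a b :=
  eqv_of (Or.inr ⟨rfl, rfl⟩)

lemma eqv_relF_iff {θ : Φ → Φ} (hθ : FInv θ) (r : Φ → Φ → Prop) (p q x y : Φ) :
    eqv (relF θ r) x y ↔ eqv (addP (addP (base θ r p q) p (θ p)) q (θ q)) x y := by
  constructor
  · refine eqv_mono ?_
    rintro u v (h | h)
    · by_cases hS : four θ p q u
      · subst h
        rcases hS with rfl | rfl | rfl | rfl
        · exact addP_left addP_pair
        · rw [hθ.inv]; exact eqv_symm (addP_left addP_pair)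
        · exact addP_pair
        · rw [hθ.inv]; exact eqv_symm addP_pair
      · exact eqv_of (Or.inl (Or.inl (Or.inr ⟨h, hS⟩)))
    · exact eqv_of (Or.inl (Or.inl (Or.inl h)))
  · refine eqv_mono ?_
    rintro u v ((( h | ⟨h, _⟩) | ⟨rfl, rfl⟩) | ⟨rfl, rfl⟩)
    · exact eqv_of (Or.inr h)
    · exact eqv_of (Or.inl h)
    · exact eqv_of (Or.inl rfl)
    · exact eqv_of (Or.inl rfl)

lemma eqv_sw_iff {θ : Φ → Φ} (hθ : FInv θ) (r : Φ → Φ → Prop) {p q : Φ}
    (h' : q ≠ θ p) (x y : Φ) :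
    eqv (relF (sw θ p q) r) x y ↔
      eqv (addP (addP (base θ r p q) q (θ p)) p (θ q)) x y := by
  constructor
  · refine eqv_mono ?_
    rintro u v (h | h)
    · by_cases hS : four θ p q u
      · subst h
        rcases hS with rfl | rfl | rfl | rfl
        · rw [sw_p hθ h']; exact addP_pair
        · rw [sw_p' hθ h']; exact eqv_symm (addP_left addP_pair)
        · rw [sw_q hθ h']; exact addP_left addP_pair
        · rw [sw_q' hθ h']; exact eqv_symm addP_pair
      · exact eqv_of (Or.inl (Or.inl (Or.inr ⟨by rw [← h, sw_apply_off hθ hS], hS⟩)))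
    · exact eqv_of (Or.inl (Or.inl (Or.inl h)))
  · refine eqv_mono ?_
    rintro u v ((( h | ⟨h, hS⟩) | ⟨rfl, rfl⟩) | ⟨rfl, rfl⟩)
    · exact eqv_of (Or.inr h)
    · exact eqv_of (Or.inl (by rw [sw_apply_off hθ hS, h]))
    · exact eqv_of (Or.inl (sw_q hθ h'))
    · exact eqv_of (Or.inl (sw_p hθ h'))

lemma ncl_of_eqv_iff {r s : Φ → Φ → Prop} (h : ∀ x y, eqv r x y ↔ eqv s x y) :
    ncl r = ncl s :=
  ncl_congr (fun x y hxy => (h x y).1 (eqv_of hxy)) (fun x y hxy => (h x y).2 (eqv_of hxy))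

lemma ncl_relF {θ : Φ → Φ} (hθ : FInv θ) (r : Φ → Φ → Prop) (p q : Φ) :
    ncl (relF θ r) = ncl (addP (addP (base θ r p q) p (θ p)) q (θ q)) :=
  ncl_of_eqv_iff (eqv_relF_iff hθ r p q)

lemma ncl_sw {θ : Φ → Φ} (hθ : FInv θ) (r : Φ → Φ → Prop) {p q : Φ} (h' : q ≠ θ p) :
    ncl (relF (sw θ p q) r) = ncl (addP (addP (base θ r p q) q (θ p)) p (θ q)) :=
  ncl_of_eqv_iff (eqv_sw_iff hθ r h')

/-- the relation of one function -/
def fr (τ : Φ → Φ) (x y : Φ) : Prop := τ x = y

/-- the three possibilities for the base pairing -/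
inductive Pairing (b : Φ → Φ → Prop) (p p' q q' : Φ) : Prop
  | parallel : eqv b p p' → eqv b q q' → ¬ eqv b p q → Pairing b p p' q q'
  | twist : eqv b p q → eqv b p' q' → ¬ eqv b p p' → Pairing b p p' q q'
  | split : eqv b p q' → eqv b q p' → ¬ eqv b p p' → Pairing b p p' q q'

theorem pairing [Finite Φ] {θ τ : Φ → Φ} (hθ : FInv θ) (hτ : FInv τ) {p q : Φ}
    (h : q ≠ p) (h' : q ≠ θ p) : Pairing (base θ (fr τ) p q) p (θ p) q (θ q) := by
  set b := base θ (fr τ) p q with hb
  have hcl := four_closed hθ p q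
  have P : ∀ {x : Φ}, four θ p q x → ∃ s, four θ p q s ∧ s ≠ x ∧ eqv b x s ∧
      ∀ t, four θ p q t → eqv b x t → t = x ∨ t = s := fun {x} hx =>
    path_lemma hθ hτ hcl hx
  have hp : four θ p q p := Or.inl rfl
  have hp' : four θ p q (θ p) := Or.inr (Or.inl rfl)
  have hq : four θ p q q := Or.inr (Or.inr (Or.inl rfl))
  have hq' : four θ p q (θ q) := Or.inr (Or.inr (Or.inr rfl))
  have n1 : θ p ≠ p := hθ.ne p
  have n2 : θ q ≠ q := hθ.ne q
  have n3 : θ q ≠ p := fun e => h' (by rw [← e, hθ.inv])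
  have n4 : θ q ≠ θ p := fun e => h (hθ.inj e)
  obtain ⟨s, hs, hsp, hps, huni⟩ := P hp
  rcases hs with rfl | rfl | rfl | rfl
  · exact absurd rfl hsp
  · -- p ~ θ p
    have hpq : ¬ eqv b p q := fun e => by
      rcases huni q hq e with e | e
      · exact h e
      · exact h' e
    obtain ⟨t, ht, htq, hqt, _⟩ := P hq
    rcases ht with rfl | rfl | rfl | rfl
    · exact absurd (eqv_symm hqt) hpq
    · exact absurd (eqv_trans hps (eqv_symm hqt)) hpq
    · exact absurd rfl htq
    · exact Pairing.parallel hps hqt hpq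
  · -- p ~ q
    have hpp : ¬ eqv b p (θ p) := fun e => by
      rcases huni _ hp' e with e | e
      · exact n1 e
      · exact h' e.symm
    obtain ⟨t, ht, htp, hpt, _⟩ := P hp'
    rcases ht with rfl | rfl | rfl | rfl
    · exact absurd (eqv_symm hpt) hpp
    · exact absurd rfl htp
    · exact absurd (eqv_trans hps (eqv_symm hpt)) hpp
    · exact Pairing.twist hps hpt hpp
  · -- p ~ θ q
    have hpp : ¬ eqv b p (θ p) := fun e => by
      rcases huni _ hp' e with e | e
      · exact n1 e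
      · exact n4 e.symm
    obtain ⟨t, ht, htp, hpt, _⟩ := P hp'
    rcases ht with rfl | rfl | rfl | rfl
    · exact absurd (eqv_symm hpt) hpp
    · exact absurd rfl htp
    · exact Pairing.split hps (eqv_symm hpt) hpp
    · exact absurd (eqv_trans hps (eqv_symm hpt)) hpp

end Pool.Agent.QuotCard
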