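import Mathlib
import Pool.Agent.Hhelper81.Switch

/-!
# Genus of a flag map and the switch lemma
-/

namespace Pool.Agent.QuotCard

variable {Φ : Type*}

lemma base_mono {θ : Φ → Φ} {r s : Φ → Φ → Prop} {p q : Φ} (h : ∀ x y, r x y → s x y)
    {x y : Φ} (e : eqv (base θ r p q) x y) : eqv (base θ s p q) x y := by
  refine eqv_mono ?_ e
  rintro u v (h1 | h1)
  · exact eqv_of (Or.inl (h _ _ h1))
  · exact eqv_of (Or.inr h1)

lemma ncl_addP_le [Finite Φ] (r : Φ → Φ → Prop) (a b : Φ) :
    ncl (addP r a b) ≤ ncl r ∧ ncl r ≤ ncl (addP r a b) + 1 := by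
  by_cases h : eqv r a b
  · rw [ncl_addP_of_eqv h]; omega
  · have := ncl_addP_of_not_eqv h; omega

/-- the count for any larger relation `r`, given the pairing in `r` -/
theorem Pairing.ncl_le [Finite Φ] {θ : Φ → Φ} (hθ : FInv θ) {r : Φ → Φ → Prop} {p q : Φ}
    (h' : q ≠ θ p) {c : Φ → Φ → Prop} (hc : ∀ x y, eqv c x y → eqv (base θ r p q) x y)
    (hP : Pairing c p (θ p) q (θ q)) :
    ncl (relF (sw θ p q) r) ≤ ncl (relF θ r) + 1 ∧
    ncl (relF θ r) ≤ ncl (relF (sw θ p q) r) + 1 := by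
  rw [ncl_relF hθ r p q, ncl_sw hθ r h']
  set b := base θ r p q with hb
  rcases hP with h1 | h1 | h1
  · rename_i h2 h3
    have e1 := hc _ _ h1
    have e2 := hc _ _ h2
    have a1 : ncl (addP (addP b p (θ p)) q (θ q)) = ncl b := by
      rw [ncl_addP_of_eqv (addP_left e2), ncl_addP_of_eqv e1]
    have a2 := ncl_addP_le b q (θ p)
    have a3 : ncl (addP (addP b q (θ p)) p (θ q)) = ncl (addP b q (θ p)) := by
      refine ncl_addP_of_eqv ?_
      exact eqv_trans (addP_left e1) (eqv_trans (eqv_symm addP_pair) (addP_left e2))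
    omega
  · rename_i h2 h3
    have e1 := hc _ _ h1
    have e2 := hc _ _ h2
    have a1 := ncl_addP_le b p (θ p)
    have a1' : ncl (addP (addP b p (θ p)) q (θ q)) = ncl (addP b p (θ p)) := by
      refine ncl_addP_of_eqv ?_
      exact eqv_trans (addP_left (eqv_symm e1)) (eqv_trans addP_pair (addP_left e2))
    have a2 := ncl_addP_le b q (θ p)
    have a3 : ncl (addP (addP b q (θ p)) p (θ q)) = ncl (addP b q (θ p)) := by
      refine ncl_addP_of_eqv ?_
      exact eqv_trans (addP_left e1) (eqv_trans addP_pair (addP_left e2))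
    omega
  · rename_i h2 h3
    have e1 := hc _ _ h1
    have e2 := hc _ _ h2
    have a1 := ncl_addP_le b p (θ p)
    have a1' : ncl (addP (addP b p (θ p)) q (θ q)) = ncl (addP b p (θ p)) := by
      refine ncl_addP_of_eqv ?_
      exact eqv_trans (addP_left e2) (eqv_trans (eqv_symm addP_pair) (addP_left e1))
    have a2 : ncl (addP (addP b q (θ p)) p (θ q)) = ncl b := by
      rw [ncl_addP_of_eqv (addP_left e1), ncl_addP_of_eqv e2]
    omega

/-- the trichotomy for a switch in the two involution graph -/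
inductive SwitchCase (θ τ : Φ → Φ) (p q : Φ) : Prop
  /-- the two cycles are merged -/
  | merge : ncl (relF (sw θ p q) (fr τ)) + 1 = ncl (relF θ (fr τ)) →
      ¬ eqv (relF θ (fr τ)) p q →
      eqv (relF (sw θ p q) (fr τ)) p (θ p) → eqv (relF (sw θ p q) (fr τ)) q (θ q) →
      SwitchCase θ τ p q
  /-- one cycle is kept -/
  | keep : ncl (relF (sw θ p q) (fr τ)) = ncl (relF θ (fr τ)) →
      eqv (relF θ (fr τ)) p q →
      eqv (relF (sw θ p q) (fr τ)) p (θ p) → eqv (relF (sw θ p q) (fr τ)) q (θ q) →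
      ncl (relF (sw θ p (θ q)) (fr τ)) = ncl (relF θ (fr τ)) + 1 →
      SwitchCase θ τ p q
  /-- one cycle is split -/
  | split : ncl (relF (sw θ p q) (fr τ)) = ncl (relF θ (fr τ)) + 1 →
      eqv (relF θ (fr τ)) p q → SwitchCase θ τ p q

lemma split_count [Finite Φ] {θ : Φ → Φ} (hθ : FInv θ) {r : Φ → Φ → Prop} {p q : Φ}
    (h' : q ≠ θ p) (e1 : eqv (base θ r p q) p (θ q)) (e2 : eqv (base θ r p q) q (θ p))
    (e3 : ¬ eqv (base θ r p q) p (θ p)) :
    ncl (relF (sw θ p q) r) = ncl (relF θ r) + 1 := by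
  rw [ncl_relF hθ r p q, ncl_sw hθ r h']
  set b := base θ r p q with hb
  have a1 := ncl_addP_of_not_eqv e3
  have a1' : ncl (addP (addP b p (θ p)) q (θ q)) = ncl (addP b p (θ p)) := by
    refine ncl_addP_of_eqv ?_
    exact eqv_trans (addP_left e2) (eqv_trans (eqv_symm addP_pair) (addP_left e1))
  have a2 : ncl (addP (addP b q (θ p)) p (θ q)) = ncl b := by
    rw [ncl_addP_of_eqv (addP_left e1), ncl_addP_of_eqv e2]
  omega

lemma base_congr_right {θ : Φ → Φ} (hθ : FInv θ) (r : Φ → Φ → Prop) (p q : Φ) :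
    base θ r p (θ q) = base θ r p q := by
  funext x y
  simp only [base, relOff, four, hθ.inv]
  refine propext (or_congr Iff.rfl (and_congr Iff.rfl (not_congr ?_)))
  tauto

theorem switch_case [Finite Φ] {θ τ : Φ → Φ} (hθ : FInv θ) (hτ : FInv τ) {p q : Φ}
    (h : q ≠ p) (h' : q ≠ θ p) : SwitchCase θ τ p q := by
  have hP := pairing hθ hτ h h'
  set b := base θ (fr τ) p q with hb
  have n3 : θ q ≠ p := fun e => h' (by rw [← e, hθ.inv])
  have n4 : θ q ≠ θ p := fun e => h (hθ.inj e)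
  have up : ∀ {x y : Φ}, eqv b x y → eqv (relF θ (fr τ)) x y := fun e => by
    rw [eqv_relF_iff hθ _ p q]; exact addP_left (addP_left e)
  have up' : ∀ {x y : Φ}, eqv b x y → eqv (relF (sw θ p q) (fr τ)) x y := fun e => by
    rw [eqv_sw_iff hθ _ h']; exact addP_left (addP_left e)
  have lθ : ∀ x, eqv (relF θ (fr τ)) x (θ x) := fun x => eqv_of (Or.inl rfl)
  have l1 : eqv (relF (sw θ p q) (fr τ)) p (θ q) := eqv_of (Or.inl (sw_p hθ h'))
  have l2 : eqv (relF (sw θ p q) (fr τ)) q (θ p) := eqv_of (Or.inl (sw_q hθ h'))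
  rcases hP with e1 | e1 | e1
  · rename_i e2 e3
    refine SwitchCase.merge ?_ ?_ (up' e1) (up' e2)
    · rw [ncl_relF hθ _ p q, ncl_sw hθ _ h']
      have a1 : ncl (addP (addP b p (θ p)) q (θ q)) = ncl b := by
        rw [ncl_addP_of_eqv (addP_left e2), ncl_addP_of_eqv e1]
      have a2 : ncl (addP b q (θ p)) + 1 = ncl b :=
        ncl_addP_of_not_eqv (fun e => e3 (eqv_trans e1 (eqv_symm e)))
      have a3 : ncl (addP (addP b q (θ p)) p (θ q)) = ncl (addP b q (θ p)) := by
        refine ncl_addP_of_eqv ?_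
        exact eqv_trans (addP_left e1) (eqv_trans (eqv_symm addP_pair) (addP_left e2))
      rw [a1, a3, a2]
    · intro e
      rw [eqv_relF_iff hθ _ p q] at e
      simp only [eqv_addP_iff] at e
      have f1 : ¬ eqv b q p := fun e => e3 (eqv_symm e)
      have f2 : ¬ eqv b q (θ p) := fun e => e3 (eqv_trans e1 (eqv_symm e))
      have f3 : ¬ eqv b p (θ q) := fun e => e3 (eqv_trans e (eqv_symm e2))
      have f4 : ¬ eqv b (θ q) p := fun e => f3 (eqv_symm e)
      have f5 : ¬ eqv b (θ q) (θ p) := fun e => f3 (eqv_trans e1 (eqv_symm e))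
      have f6 : ¬ eqv b (θ p) q := fun e => f2 (eqv_symm e)
      have f7 : ¬ eqv b (θ p) (θ q) := fun e => f5 (eqv_symm e)
      change (_ ∨ _) at e
      rcases e with (e | ⟨_, e | e⟩) | ⟨(e | ⟨_, e | e⟩) | (e | ⟨_, e | e⟩), _⟩
      all_goals first
        | exact e3 e
        | exact f1 e
        | exact f2 e
        | exact f3 e
        | exact f4 e
        | exact f5 e
  · rename_i e2 e3
    have e13 : ¬ eqv b p (θ q) := fun e => e3 (eqv_trans e (eqv_symm e2))
    refine SwitchCase.keep ?_ (up e1) ?_ ?_ ?_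
    · rw [ncl_relF hθ _ p q, ncl_sw hθ _ h']
      have a1 := ncl_addP_of_not_eqv e3
      have a1' : ncl (addP (addP b p (θ p)) q (θ q)) = ncl (addP b p (θ p)) := by
        refine ncl_addP_of_eqv ?_
        exact eqv_trans (addP_left (eqv_symm e1)) (eqv_trans addP_pair (addP_left e2))
      have a2 : ncl (addP b q (θ p)) + 1 = ncl b :=
        ncl_addP_of_not_eqv (fun e => e3 (eqv_trans e1 e))
      have a3 : ncl (addP (addP b q (θ p)) p (θ q)) = ncl (addP b q (θ p)) := by
        refine ncl_addP_of_eqv ?_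
        exact eqv_trans (addP_left e1) (eqv_trans addP_pair (addP_left e2))
      rw [a1', a3]; omega
    · exact eqv_trans (up' e1) l2
    · exact eqv_trans (up' (eqv_symm e1)) l1
    · refine split_count hθ n4 ?_ ?_ ?_
      · rw [base_congr_right hθ, hθ.inv]; exact e1
      · rw [base_congr_right hθ]; exact eqv_symm e2
      · rw [base_congr_right hθ]; exact e3
  · rename_i e2 e3
    refine SwitchCase.split (split_count hθ h' e1 e2 e3) ?_
    exact eqv_trans (up e1) (eqv_symm (lθ q))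

/-- a map given by flags -/
structure FMap (Φ : Type*) where
  /-- along the edge -/
  a0 : Φ → Φ
  /-- corner -/
  a1 : Φ → Φ
  /-- other side of the dart -/
  a2 : Φ → Φ
  h0 : FInv a0
  h1 : FInv a1
  h2 : FInv a2

namespace FMap

/-- number of vertices -/
noncomputable def V (M : FMap Φ) : ℕ := ncl (relF M.a1 (fr M.a2))
/-- number of faces -/
noncomputable def F (M : FMap Φ) : ℕ := ncl (relF M.a1 (fr M.a0))
/-- number of edges -/
noncomputable def E (M : FMap Φ) : ℕ := ncl (relF M.a0 (fr M.a2))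
/-- number of components -/
noncomputable def C (M : FMap Φ) : ℕ := ncl (relF M.a1 (rel2 M.a0 M.a2))
/-- Euler genus -/
noncomputable def g (M : FMap Φ) : ℤ := 2 * M.C - M.V + M.E - M.F

/-- the switch at two corners -/
noncomputable def switch (M : FMap Φ) (p q : Φ) : FMap Φ where
  a0 := M.a0
  a1 := sw M.a1 p q
  a2 := M.a2
  h0 := M.h0
  h1 := sw_finv M.h1 p q
  h2 := M.h2

theorem switch_E (M : FMap Φ) (p q : Φ) : (M.switch p q).E = M.E := rfl

theorem switch_C_le [Finite Φ] (M : FMap Φ) {p q : Φ} (h : q ≠ p) (h' : q ≠ M.a1 p) :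
    (M.switch p q).C ≤ M.C + 1 := by
  refine (Pairing.ncl_le M.h1 h' ?_ (pairing M.h1 M.h2 h h')).1
  intro x y e
  exact base_mono (fun u v huv => Or.inr huv) e

/-- if the old corners are still connected, the number of components does not grow -/
theorem switch_C_of_conn [Finite Φ] (M : FMap Φ) {p q : Φ}
    (e1 : eqv (relF (sw M.a1 p q) (rel2 M.a0 M.a2)) p (M.a1 p))
    (e2 : eqv (relF (sw M.a1 p q) (rel2 M.a0 M.a2)) q (M.a1 q)) :
    (M.switch p q).C ≤ M.C := by
  refine ncl_le ?_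
  rintro x y (hxy | hxy)
  · by_cases hS : four M.a1 p q x
    · subst hxy
      rcases hS with rfl | rfl | rfl | rfl
      · exact e1
      · rw [M.h1.inv]; exact eqv_symm e1
      · exact e2
      · rw [M.h1.inv]; exact eqv_symm e2
    · exact eqv_of (Or.inl (by
        change sw M.a1 p q x = y
        rw [sw_apply_off M.h1 hS, hxy]))
  · exact eqv_of (Or.inr hxy)

/-- the three cases for the vertices (`τ = a2`) or the faces (`τ = a0`) -/
theorem switch_conn [Finite Φ] (M : FMap Φ) {p q : Φ} (h : q ≠ p) (h' : q ≠ M.a1 p)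
    {τ : Φ → Φ} (hτ : FInv τ) (hr : ∀ x y, fr τ x y → rel2 M.a0 M.a2 x y)
    (hno : ncl (relF (sw M.a1 p q) (fr τ)) ≠ ncl (relF M.a1 (fr τ)) + 1) :
    (M.switch p q).C ≤ M.C := by
  have up : ∀ {x y : Φ}, eqv (relF (sw M.a1 p q) (fr τ)) x y →
      eqv (relF (sw M.a1 p q) (rel2 M.a0 M.a2)) x y := fun e => by
    refine eqv_mono ?_ e
    rintro u v (huv | huv)
    · exact eqv_of (Or.inl huv)
    · exact eqv_of (Or.inr (hr _ _ huv))
  rcases switch_case M.h1 hτ h h' with h1 | h1 | h1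
  · rename_i _ e1 e2
    exact switch_C_of_conn M (up e1) (up e2)
  · rename_i _ e1 e2 _
    exact switch_C_of_conn M (up e1) (up e2)
  · exact absurd h1 hno

lemma ncl_sw_bounds [Finite Φ] {θ τ : Φ → Φ} (hθ : FInv θ) (hτ : FInv τ) {p q : Φ}
    (h : q ≠ p) (h' : q ≠ θ p) :
    ncl (relF θ (fr τ)) ≤ ncl (relF (sw θ p q) (fr τ)) + 1 := by
  rcases switch_case hθ hτ h h' with h1 | h1 | h1 <;> omega

/-- **Genus lemma**, vertex version. -/
theorem switch_g_le_of_V [Finite Φ] (M : FMap Φ) {p q : Φ} (h : q ≠ p) (h' : q ≠ M.a1 p)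
    (hV : (M.switch p q).V = M.V + 1) : (M.switch p q).g ≤ M.g := by
  unfold g
  rw [switch_E, hV]
  by_cases hF : (M.switch p q).F = M.F + 1
  · have := switch_C_le M h h'
    rw [hF]; push_cast; omega
  · have hC := switch_conn M h h' M.h0 (fun x y e => Or.inl e) hF
    have hF' : M.F ≤ (M.switch p q).F + 1 := ncl_sw_bounds M.h1 M.h0 h h'
    push_cast; omega

/-- **Genus lemma**, face version. -/
theorem switch_g_le_of_F [Finite Φ] (M : FMap Φ) {p q : Φ} (h : q ≠ p) (h' : q ≠ M.a1 p)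
    (hF : (M.switch p q).F = M.F + 1) : (M.switch p q).g ≤ M.g := by
  unfold g
  rw [switch_E, hF]
  by_cases hV : (M.switch p q).V = M.V + 1
  · have := switch_C_le M h h'
    rw [hV]; push_cast; omega
  · have hC := switch_conn M h h' M.h2 (fun x y e => Or.inr e) hV
    have hV' : M.V ≤ (M.switch p q).V + 1 := ncl_sw_bounds M.h1 M.h2 h h'
    push_cast; omega

end FMap

end Pool.Agent.QuotCard
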