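import Mathlib
import Pool.Agent.Hhelper81.Genus

/-!
# Flag maps: splitting pairings, snapping, nonnegativity of the genus, restriction
-/

namespace Pool.Agent.QuotCard

variable {Φ : Type*}

/-! ### existence of a splitting pairing -/

/-- Two different corners in one class: one of the two pairings splits the class. -/
theorem exists_split [Finite Φ] {θ τ : Φ → Φ} (hθ : FInv θ) (hτ : FInv τ) {p q : Φ}
    (h : q ≠ p) (h' : q ≠ θ p) (e : eqv (relF θ (fr τ)) p q) :
    ncl (relF (sw θ p q) (fr τ)) = ncl (relF θ (fr τ)) + 1 ∨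
    ncl (relF (sw θ p (θ q)) (fr τ)) = ncl (relF θ (fr τ)) + 1 := by
  rcases switch_case hθ hτ h h' with h1 | h1 | h1
  · rename_i e1 _ _
    exact absurd e e1
  · rename_i _ _ _ e1
    exact Or.inr e1
  · exact Or.inl h1

/-- corners in one class: the number of classes does not drop -/
theorem le_of_same [Finite Φ] {θ τ : Φ → Φ} (hθ : FInv θ) (hτ : FInv τ) {p q : Φ}
    (h : q ≠ p) (h' : q ≠ θ p) (e : eqv (relF θ (fr τ)) p q) :
    ncl (relF θ (fr τ)) ≤ ncl (relF (sw θ p q) (fr τ)) := by
  rcases switch_case hθ hτ h h' with h1 | h1 | h1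
  · rename_i e1 _ _
    exact absurd e e1
  · omega
  · omega

/-- corners in different classes: they are merged -/
theorem merge_of_ne [Finite Φ] {θ τ : Φ → Φ} (hθ : FInv θ) (hτ : FInv τ) {p q : Φ}
    (h : q ≠ p) (h' : q ≠ θ p) (e : ¬ eqv (relF θ (fr τ)) p q) :
    ncl (relF (sw θ p q) (fr τ)) + 1 = ncl (relF θ (fr τ)) := by
  rcases switch_case hθ hτ h h' with h1 | h1 | h1
  · exact h1
  · rename_i e1 _ _ _
    exact absurd e1 e
  · rename_i e1
    exact absurd e1 e

/-- if one class of `θ, τ` is split, the classes of a larger relation do not drop -/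
theorem le_of_split [Finite Φ] {θ τ : Φ → Φ} (hθ : FInv θ) (hτ : FInv τ) {p q : Φ}
    (h : q ≠ p) (h' : q ≠ θ p) {r : Φ → Φ → Prop} (hr : ∀ x y, fr τ x y → r x y)
    (e : ncl (relF (sw θ p q) (fr τ)) = ncl (relF θ (fr τ)) + 1) :
    ncl (relF θ r) ≤ ncl (relF (sw θ p q) r) := by
  rcases pairing hθ hτ h h' with e1 | e1 | e1
  · rename_i e2 e3
    exfalso
    rw [ncl_relF hθ _ p q, ncl_sw hθ _ h'] at e
    have a1 : ncl (addP (addP (base θ (fr τ) p q) p (θ p)) q (θ q)) =
        ncl (base θ (fr τ) p q) := by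
      rw [ncl_addP_of_eqv (addP_left e2), ncl_addP_of_eqv e1]
    have a2 := (ncl_addP_le (base θ (fr τ) p q) q (θ p)).1
    have a3 := (ncl_addP_le (addP (base θ (fr τ) p q) q (θ p)) p (θ q)).1
    omega
  · rename_i e2 e3
    exfalso
    rcases switch_case hθ hτ h h' with h1 | h1 | h1
    · omega
    · omega
    · -- the class is split although the base pairing is `twist`
      rw [ncl_relF hθ _ p q, ncl_sw hθ _ h'] at e
      have a1 := ncl_addP_of_not_eqv e3
      have a1' : ncl (addP (addP (base θ (fr τ) p q) p (θ p)) q (θ q)) =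
          ncl (addP (base θ (fr τ) p q) p (θ p)) := by
        refine ncl_addP_of_eqv ?_
        exact eqv_trans (addP_left (eqv_symm e1)) (eqv_trans addP_pair (addP_left e2))
      have a2 : ncl (addP (base θ (fr τ) p q) q (θ p)) + 1 = ncl (base θ (fr τ) p q) :=
        ncl_addP_of_not_eqv (fun e => e3 (eqv_trans e1 e))
      have a3 := (ncl_addP_le (addP (base θ (fr τ) p q) q (θ p)) p (θ q)).1
      omega
  · rename_i e2 e3
    have f1 := base_mono (θ := θ) (p := p) (q := q) hr e1
    have f2 := base_mono (θ := θ) (p := p) (q := q) hr e2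
    rw [ncl_relF hθ r p q, ncl_sw hθ r h']
    have a2 : ncl (addP (addP (base θ r p q) q (θ p)) p (θ q)) = ncl (base θ r p q) := by
      rw [ncl_addP_of_eqv (addP_left f1), ncl_addP_of_eqv f2]
    have a3 := (ncl_addP_le (base θ r p q) p (θ p)).1
    have a4 := (ncl_addP_le (addP (base θ r p q) p (θ p)) q (θ q)).1
    omega

/-- **Snapping**: the switch at `θ x` and `τ x` makes `θ x = τ x`; it splits a class of
`θ, τ`. -/
theorem snap_split [Finite Φ] {θ τ : Φ → Φ} (hθ : FInv θ) (hτ : FInv τ) {x : Φ}
    (h : θ x ≠ τ x) :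
    ncl (relF (sw θ (θ x) (τ x)) (fr τ)) = ncl (relF θ (fr τ)) + 1 := by
  have hq : τ x ≠ θ x := fun e => h e.symm
  have hq' : τ x ≠ θ (θ x) := by rw [hθ.inv]; exact hτ.ne x
  have e0 : eqv (base θ (fr τ) (θ x) (τ x)) (τ x) (θ (θ x)) := by
    rw [hθ.inv]; exact eqv_of (Or.inl (hτ.inv x))
  rcases pairing hθ hτ hq hq' with e1 | e1 | e1
  · rename_i e2 e3
    exact absurd (eqv_trans e1 (eqv_symm e0)) e3
  · rename_i e2 e3
    exact absurd (eqv_trans e1 e0) e3
  · rename_i e2 e3
    exact split_count hθ hq' e1 e2 e3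

/-- after snapping `θ` and `τ` agree at `x` -/
lemma snap_agree {θ τ : Φ → Φ} (hθ : FInv θ) (hτ : FInv τ) (x : Φ) :
    sw θ (θ x) (τ x) x = τ x := by
  have hq' : τ x ≠ θ (θ x) := by rw [hθ.inv]; exact hτ.ne x
  have := sw_p' hθ (p := θ x) (q := τ x) hq'
  rwa [hθ.inv] at this

/-- snapping destroys no agreement -/
lemma snap_keep {θ τ : Φ → Φ} (hθ : FInv θ) (hτ : FInv τ) {x y : Φ} (h : θ x ≠ τ x)
    (hy : θ y = τ y) : sw θ (θ x) (τ x) y = τ y := by
  rw [← hy]
  refine sw_apply_off hθ ?_
  rintro (rfl | e | rfl | e)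
  · rw [hθ.inv] at hy
    have e := congrArg τ hy
    rw [hτ.inv] at e
    exact h e.symm
  · rw [hθ.inv] at e
    subst e; exact h hy
  · rw [hτ.inv] at hy
    have e := congrArg θ hy
    rw [hθ.inv] at e
    exact h e.symm
  · have e2 : θ y = τ x := by rw [e, hθ.inv]
    rw [hy] at e2
    exact h (by rw [← hτ.inj e2, hy])

namespace FMap

/-- the edges have exactly four flags -/
structure Edge4 (M : FMap Φ) : Prop where
  comm : ∀ x, M.a0 (M.a2 x) = M.a2 (M.a0 x)
  ne : ∀ x, M.a0 x ≠ M.a2 x

lemma Edge4.switch {M : FMap Φ} (h : M.Edge4) (p q : Φ) : (M.switch p q).Edge4 :=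
  ⟨h.comm, h.ne⟩

/-- snap a corner to the dart: `a1 x = a2 x` afterwards -/
noncomputable def snapV (M : FMap Φ) (x : Φ) : FMap Φ := M.switch (M.a1 x) (M.a2 x)

/-- snap a corner to the edge: `a1 x = a0 x` afterwards -/
noncomputable def snapF (M : FMap Φ) (x : Φ) : FMap Φ := M.switch (M.a1 x) (M.a0 x)

theorem snapV_g_le [Finite Φ] (M : FMap Φ) {x : Φ} (h : M.a1 x ≠ M.a2 x) :
    (M.snapV x).g ≤ M.g := by
  refine switch_g_le_of_V M (fun e => h e.symm) ?_ ?_
  · rw [M.h1.inv]; exact M.h2.ne x
  · exact snap_split M.h1 M.h2 h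

theorem snapF_g_le [Finite Φ] (M : FMap Φ) {x : Φ} (h : M.a1 x ≠ M.a0 x) :
    (M.snapF x).g ≤ M.g := by
  refine switch_g_le_of_F M (fun e => h e.symm) ?_ ?_
  · rw [M.h1.inv]; exact M.h0.ne x
  · exact snap_split M.h1 M.h0 h

lemma snapV_agree (M : FMap Φ) (x : Φ) : (M.snapV x).a1 x = M.a2 x :=
  snap_agree M.h1 M.h2 x

lemma snapF_agree (M : FMap Φ) (x : Φ) : (M.snapF x).a1 x = M.a0 x :=
  snap_agree M.h1 M.h0 x

lemma snapV_keep (M : FMap Φ) {x y : Φ} (h : M.a1 x ≠ M.a2 x) (hy : M.a1 y = M.a2 y) :
    (M.snapV x).a1 y = M.a2 y :=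
  snap_keep M.h1 M.h2 h hy

lemma snapF_keep (M : FMap Φ) {x y : Φ} (h : M.a1 x ≠ M.a0 x) (hy : M.a1 y = M.a0 y) :
    (M.snapF x).a1 y = M.a0 y :=
  snap_keep M.h1 M.h0 h hy

/-- number of classes of one fixed point free involution -/
lemma two_mul_ncl_fr [Finite Φ] {τ : Φ → Φ} (hτ : FInv τ) :
    2 * ncl (fr τ) = Nat.card Φ := by
  classical
  have : Fintype Φ := Fintype.ofFinite Φ
  have e : Φ ≃ (Quot (fr τ)) × Bool := by
    let out : Quot (fr τ) → Φ := Quot.out
    have hout : ∀ c, Quot.mk (fr τ) (out c) = c := Quot.out_eq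
    have hcl : ∀ x y, eqv (fr τ) x y → y = x ∨ y = τ x := by
      intro x y h
      have key : ∀ u v : Φ, Relation.EqvGen (fr τ) u v → v = u ∨ v = τ u := by
        intro u v huv
        induction huv with
        | rel u v h => exact Or.inr h.symm
        | refl u => exact Or.inl rfl
        | symm u v _ ih =>
          rcases ih with rfl | rfl
          · exact Or.inl rfl
          · exact Or.inr (hτ.inv _).symm
        | trans u v w _ _ ih1 ih2 =>
          rcases ih1 with rfl | rfl
          · exact ih2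
          · rcases ih2 with rfl | rfl
            · exact Or.inr rfl
            · exact Or.inl (hτ.inv _)
      exact key x y (Quot.eqvGen_exact h)
    refine
      { toFun := fun x => (Quot.mk _ x, decide (x = out (Quot.mk _ x)))
        invFun := fun c => if c.2 then out c.1 else τ (out c.1)
        left_inv := ?_
        right_inv := ?_ }
    · intro x
      by_cases hx : x = out (Quot.mk (fr τ) x)
      · simp only [← hx, decide_true, if_true]
      · have h1 : eqv (fr τ) (out (Quot.mk (fr τ) x)) x := hout _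
        have h2 := hcl _ _ h1
        rcases h2 with h2 | h2
        · exact absurd h2 hx
        · simp only [hx, decide_false, Bool.false_eq_true, if_false]
          exact h2.symm
    · rintro ⟨c, bb⟩
      have h1 : Quot.mk (fr τ) (τ (out c)) = c := by
        have : eqv (fr τ) (out c) (τ (out c)) := eqv_of rfl
        exact this.symm.trans (hout c)
      cases bb
      · simp only [Bool.false_eq_true, if_false]
        refine Prod.ext h1 ?_
        simp only [decide_eq_false_iff_not]
        rw [h1]
        exact hτ.ne _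
      · simp only [if_true]
        refine Prod.ext (hout c) ?_
        simp only [decide_eq_true_eq]
        rw [hout c]
  unfold ncl
  rw [Nat.card_congr e, Nat.card_prod, Nat.card_eq_fintype_card (α := Bool),
    Fintype.card_bool, mul_comm]

lemma ncl_relF_self {θ τ : Φ → Φ} (h : ∀ x, θ x = τ x) : ncl (relF θ (fr τ)) = ncl (fr τ) := by
  refine ncl_congr ?_ ?_
  · rintro x y (hxy | hxy)
    · exact eqv_of (by rw [fr, ← h]; exact hxy)
    · exact eqv_of hxy
  · intro x y hxy
    exact eqv_of (Or.inr hxy)

/-- `4 E` is the number of flags -/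
theorem Edge4.four_E [Finite Φ] {M : FMap Φ} (h : M.Edge4) : 4 * M.E = Nat.card Φ := by
  classical
  -- `a0` induces a fixed point free involution on the classes of `a2`
  let σ : Quot (fr M.a2) → Quot (fr M.a2) := Quot.map M.a0 (by
    intro x y hxy
    change M.a2 (M.a0 x) = M.a0 y
    rw [← h.comm, hxy])
  have hcl : ∀ x y, eqv (fr M.a2) x y → y = x ∨ y = M.a2 x := by
    intro x y h
    have key : ∀ u v : Φ, Relation.EqvGen (fr M.a2) u v → v = u ∨ v = M.a2 u := by
      intro u v huv
      induction huv with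
      | rel u v h => exact Or.inr h.symm
      | refl u => exact Or.inl rfl
      | symm u v _ ih =>
        rcases ih with rfl | rfl
        · exact Or.inl rfl
        · exact Or.inr (M.h2.inv _).symm
      | trans u v w _ _ ih1 ih2 =>
        rcases ih1 with rfl | rfl
        · exact ih2
        · rcases ih2 with rfl | rfl
          · exact Or.inr rfl
          · exact Or.inl (M.h2.inv _)
    exact key x y (Quot.eqvGen_exact h)
  have hσ : FInv σ := by
    constructor
    · rintro ⟨x⟩
      exact congrArg (Quot.mk (fr M.a2)) (M.h0.inv x)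
    · rintro ⟨x⟩ hx
      have hx' : eqv (fr M.a2) (M.a0 x) x := hx
      rcases hcl _ _ hx' with e | e
      · exact M.h0.ne x e.symm
      · exact h.ne x (by
          have := congrArg M.a2 e
          rw [M.h2.inv] at this
          exact this.symm)
  have : Finite (Quot (fr M.a2)) := Finite.of_surjective (Quot.mk _) Quot.mk_surjective
  have e1 := two_mul_ncl_fr hσ
  have e2 := two_mul_ncl_fr M.h2
  have e3 : ncl (fr σ) = M.E := by
    unfold ncl E ncl
    refine Nat.card_congr ?_
    refine
      { toFun := Quot.lift (Quot.lift (fun x => Quot.mk _ x) ?_) ?_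
        invFun := Quot.lift (fun x => Quot.mk _ (Quot.mk _ x)) ?_
        left_inv := ?_
        right_inv := ?_ }
    · intro x y hxy; exact Quot.sound (Or.inr hxy)
    · rintro ⟨x⟩ ⟨y⟩ hxy
      have hxy' : eqv (fr M.a2) (M.a0 x) y := hxy
      change eqv (relF M.a0 (fr M.a2)) x y
      rcases hcl _ _ hxy' with e | e
      · exact eqv_of (Or.inl e.symm)
      · refine eqv_trans (eqv_of (Or.inl rfl)) ?_
        exact eqv_of (Or.inr e.symm)
    · rintro x y (hxy | hxy)
      · refine Quot.sound ?_
        change Quot.mk _ (M.a0 x) = Quot.mk _ y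
        rw [hxy]
      · have : Quot.mk (fr M.a2) x = Quot.mk (fr M.a2) y := Quot.sound hxy
        rw [this]
    · rintro ⟨⟨x⟩⟩; rfl
    · rintro ⟨x⟩; rfl
  unfold ncl at e1 e2 e3
  rw [← e2, ← e1, e3]
  ring

/-- **The Euler genus is nonnegative.** -/
theorem Edge4.g_nonneg [Finite Φ] {M : FMap Φ} (h : M.Edge4) : 0 ≤ M.g := by
  classical
  have : Fintype Φ := Fintype.ofFinite Φ
  induction hk : (Finset.univ.filter (fun x => M.a1 x ≠ M.a2 x)).card using
    Nat.strong_induction_on generalizing M with
  | _ k ih =>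
    by_cases hall : ∀ x, M.a1 x = M.a2 x
    · have hV : 2 * M.V = Nat.card Φ := by
        unfold V
        rw [ncl_relF_self hall]
        exact two_mul_ncl_fr M.h2
      have hE := h.four_E
      have hF : M.F = M.E := by
        unfold F E
        refine ncl_congr ?_ ?_
        · rintro x y (hxy | hxy)
          · exact eqv_of (Or.inr (by rw [fr, ← hall]; exact hxy))
          · exact eqv_of (Or.inl hxy)
        · rintro x y (hxy | hxy)
          · exact eqv_of (Or.inr hxy)
          · exact eqv_of (Or.inl (by rw [hall]; exact hxy))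
      have hC : M.C = M.E := by
        unfold C E
        refine ncl_congr ?_ ?_
        · rintro x y (hxy | hxy | hxy)
          · exact eqv_of (Or.inr (by rw [fr, ← hall]; exact hxy))
          · exact eqv_of (Or.inl hxy)
          · exact eqv_of (Or.inr hxy)
        · rintro x y (hxy | hxy)
          · exact eqv_of (Or.inr (Or.inl hxy))
          · exact eqv_of (Or.inr (Or.inr hxy))
      unfold g
      rw [hF, hC]
      have : M.V = 2 * M.E := by omega
      rw [this]; push_cast; omega
    · push Not at hall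
      obtain ⟨x, hx⟩ := hall
      have h1 := snapV_g_le M hx
      have h2 : 0 ≤ (M.snapV x).g := by
        refine ih _ ?_ (h.switch _ _) rfl
        rw [← hk]
        refine Finset.card_lt_card ?_
        rw [Finset.ssubset_iff_of_subset]
        · refine ⟨x, by simpa using hx, ?_⟩
          simp only [Finset.mem_filter, Finset.mem_univ, true_and, not_not]
          exact snapV_agree M x
        · intro y
          simp only [Finset.mem_filter, Finset.mem_univ, true_and]
          intro hy hy'
          exact hy (snapV_keep M hx hy')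
      exact h2.trans h1

end FMap

end Pool.Agent.QuotCard
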