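import Mathlib

namespace Pool.Agent.Hhelper81.TwoNearPerfectAux

/-- both omitted divisors divisible by `p^m`, `m ≥ 3`. -/
lemma caseA1 (p t P X x y : ℤ) (hp : 3 ≤ p) (hpo : Odd p) (hP : p ^ 3 ≤ P)
    (hx : 0 < x) (hy : 0 < y) (hxy : 2 * x ∣ y) (hyX : 2 * y ∣ X)
    (ht0 : 0 < t) (ht : t * P = X - 1) (h : t + p = X - (p - 1) * (x + y)) : False := by
  obtain ⟨r, hr⟩ := hpo
  have h1 : 2 * x ∣ t + p := by
    rw [h]
    have e1 : 2 * x ∣ X := dvd_trans (dvd_trans hxy (Dvd.intro_left 2 rfl)) hyX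
    have e2 : 2 * x ∣ (p - 1) * (x + y) := by
      rw [mul_add]
      refine dvd_add ?_ (Dvd.dvd.mul_left hxy _)
      exact ⟨r, by rw [hr]; ring⟩
    exact dvd_sub e1 e2
  have h2 : 2 * x ≤ t + p := Int.le_of_dvd (by linarith) h1
  have h3 : 2 * y ∣ t + p + (p - 1) * x := by
    have : t + p + (p - 1) * x = X - 2 * y * r := by rw [h, hr]; ring
    rw [this]
    exact dvd_sub hyX (Dvd.intro _ rfl)
  have h4 : 2 * y ≤ t + p + (p - 1) * x := by
    refine Int.le_of_dvd ?_ h3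
    nlinarith
  have h5 : 4 * X ≤ (t + p) * (p + 1) ^ 2 := by
    have e1 : 4 * X = 4 * (t + p) + 4 * (p - 1) * x + 2 * (p - 1) * (2 * y) := by linarith
    have e2 : 2 * (p - 1) * (2 * y) ≤ 2 * (p - 1) * (t + p + (p - 1) * x) :=
      mul_le_mul_of_nonneg_left h4 (by linarith)
    have e3 : (p - 1) * (2 * x) ≤ (p - 1) * (t + p) := mul_le_mul_of_nonneg_left h2 (by linarith)
    have e4 : (p - 1) ^ 2 * (2 * x) ≤ (p - 1) ^ 2 * (t + p) :=
      mul_le_mul_of_nonneg_left h2 (by positivity)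
    nlinarith
  have h6 : t * p ^ 3 ≤ X - 1 := by rw [← ht]; exact mul_le_mul_of_nonneg_left hP ht0.le
  -- 4(t p^3 + 1) ≤ (t+p)(p+1)^2
  have h7 : 4 * (t * p ^ 3) + 4 ≤ (t + p) * (p + 1) ^ 2 := by linarith
  have h8 : 0 ≤ (t - 1) * (4 * p ^ 3 - (p + 1) ^ 2) := by
    apply mul_nonneg (by linarith)
    nlinarith [sq_nonneg (p - 3), sq_nonneg p]
  nlinarith [sq_nonneg (p - 3), sq_nonneg p, mul_nonneg (by linarith : (0:ℤ) ≤ p - 3) (sq_nonneg p)]


/-- `d₂ = y p^m`, `d₁ = x p^(m-1)`, `m ≥ 4`. -/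
lemma caseA2_ge4 (p t Q X x y : ℤ) (hp : 3 ≤ p) (hpo : Odd p) (hQ : p ^ 3 ≤ Q)
    (hx : 0 < x) (hy : 0 < y) (hxy : x ∣ y ∨ y ∣ x) (hxX : 2 * x ∣ X) (hyX : 2 * y ∣ X)
    (hX : 0 < X)
    (ht0 : 0 < t) (ht : t * Q = X - 1)
    (h : t + p ^ 2 = p * X - (p - 1) * x - p * (p - 1) * y) : False := by
  obtain ⟨r, hr⟩ := hpo
  have h6 : t * p ^ 3 ≤ X - 1 := by rw [← ht]; exact mul_le_mul_of_nonneg_left hQ ht0.le
  rcases hxy with hxy | hxy
  · have h1 : 2 * x ∣ t + p ^ 2 := by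
      rw [h]
      have e1 : 2 * x ∣ p * X := Dvd.dvd.mul_left hxX _
      have e2 : 2 * x ∣ (p - 1) * x := ⟨r, by rw [hr]; ring⟩
      have e3 : 2 * x ∣ p * (p - 1) * y := by
        obtain ⟨w, hw⟩ := hxy
        exact ⟨p * r * w, by rw [hw, hr]; ring⟩
      exact dvd_sub (dvd_sub e1 e2) e3
    have h2 : 2 * x ≤ t + p ^ 2 := Int.le_of_dvd (by positivity) h1
    have h3 : 2 * y ∣ X - (p - 1) * y := by
      have : X - (p - 1) * y = X - 2 * y * r := by rw [hr]; ring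
      rw [this]
      exact dvd_sub hyX (Dvd.intro _ rfl)
    have h3' : 0 < X - (p - 1) * y := by
      have : 0 < p * (X - (p - 1) * y) := by
        have : p * (X - (p - 1) * y) = t + p ^ 2 + (p - 1) * x := by linarith
        rw [this]; nlinarith
      exact (mul_pos_iff_of_pos_left (by linarith)).1 this
    have h4 : 2 * y ≤ X - (p - 1) * y := Int.le_of_dvd h3' h3
    have h5 : 4 * p * X ≤ (t + p ^ 2) * (p + 1) ^ 2 := by
      have e0 : p * (2 * y) ≤ t + p ^ 2 + (p - 1) * x := by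
        calc p * (2 * y) ≤ p * (X - (p - 1) * y) := mul_le_mul_of_nonneg_left h4 (by linarith)
          _ = t + p ^ 2 + (p - 1) * x := by linarith
      have e2 : 2 * (p - 1) * (p * (2 * y)) ≤ 2 * (p - 1) * (t + p ^ 2 + (p - 1) * x) :=
        mul_le_mul_of_nonneg_left e0 (by linarith)
      have e3 : (p - 1) * (2 * x) ≤ (p - 1) * (t + p ^ 2) :=
        mul_le_mul_of_nonneg_left h2 (by linarith)
      have e4 : (p - 1) ^ 2 * (2 * x) ≤ (p - 1) ^ 2 * (t + p ^ 2) :=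
        mul_le_mul_of_nonneg_left h2 (by positivity)
      nlinarith
    have h7 : 4 * p * (t * p ^ 3) + 4 * p ≤ (t + p ^ 2) * (p + 1) ^ 2 := by nlinarith
    have h8 : 0 ≤ (t - 1) * (4 * p ^ 4 - (p + 1) ^ 2) := by
      apply mul_nonneg (by linarith)
      nlinarith [sq_nonneg (p - 3), sq_nonneg p, sq_nonneg (p ^ 2 - 9)]
    have h9 : (0:ℤ) < 3 * p ^ 4 - 2 * p ^ 3 - 2 * p ^ 2 + 2 * p - 1 := by
      have : (0:ℤ) ≤ p - 3 := by linarith
      have e : 3 * p ^ 4 - 2 * p ^ 3 - 2 * p ^ 2 + 2 * p - 1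
        = 3 * (p-3)^4 + 34 * (p-3)^3 + 142 * (p-3)^2 + 260 * (p-3) + 176 := by ring
      rw [e]; positivity
    nlinarith
  · have h1 : 2 * y ∣ t + p ^ 2 := by
      rw [h]
      have e1 : 2 * y ∣ p * X := Dvd.dvd.mul_left hyX _
      have e2 : 2 * y ∣ (p - 1) * x := by
        obtain ⟨w, hw⟩ := hxy
        exact ⟨r * w, by rw [hw, hr]; ring⟩
      have e3 : 2 * y ∣ p * (p - 1) * y := ⟨p * r, by rw [hr]; ring⟩
      exact dvd_sub (dvd_sub e1 e2) e3
    have h2 : 2 * y ≤ t + p ^ 2 := Int.le_of_dvd (by positivity) h1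
    have h3 : 2 * x ≤ X := Int.le_of_dvd hX hxX
    have h5 : (p + 1) * X ≤ (t + p ^ 2) * (p ^ 2 - p + 2) := by
      have e1 : (p - 1) * (2 * x) ≤ (p - 1) * X := mul_le_mul_of_nonneg_left h3 (by linarith)
      have e2 : p * (p - 1) * (2 * y) ≤ p * (p - 1) * (t + p ^ 2) :=
        mul_le_mul_of_nonneg_left h2 (by nlinarith)
      nlinarith
    have h7 : (p + 1) * (t * p ^ 3 + 1) ≤ (t + p ^ 2) * (p ^ 2 - p + 2) := by nlinarith
    have h8 : 0 ≤ (t - 1) * (p ^ 4 + p ^ 3 - p ^ 2 + p - 2) := by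
      apply mul_nonneg (by linarith)
      have : (0:ℤ) ≤ p - 3 := by linarith
      have e : p ^ 4 + p ^ 3 - p ^ 2 + p - 2
        = (p-3)^4 + 13 * (p-3)^3 + 62 * (p-3)^2 + 130 * (p-3) + 100 := by ring
      rw [e]; positivity
    have h9 : (0:ℤ) < 2 * p ^ 3 - 3 * p ^ 2 + 2 * p - 1 := by
      have : (0:ℤ) ≤ p - 3 := by linarith
      have e : 2 * p ^ 3 - 3 * p ^ 2 + 2 * p - 1
        = 2 * (p-3)^3 + 15 * (p-3)^2 + 38 * (p-3) + 32 := by ring
      rw [e]; positivity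
    nlinarith

set_option maxHeartbeats 2000000 in
/-- `d₂ = y p^3`, `d₁ = x p^2`, `m = 3`; `X = R y`, powers of two. -/
lemma caseA2_eq3 (p t X x y R : ℤ) (hp : 3 ≤ p) (hpo : Odd p)
    (hx : 0 < x) (hy : 0 < y) (hxy : x ∣ y ∨ 2 * y ∣ x) (hxX : 2 * x ∣ X) (hyX : X = 2 * R * y)
    (hR : 0 < R) (hRp : p ≠ R) (h4 : 4 ∣ X) (hRodd : 2 * R ≠ p)
    (ht0 : 0 < t) (ht : t * p ^ 2 = X - 1)
    (h : t + p ^ 2 = p * X - (p - 1) * x - p * (p - 1) * y) : False := by
  obtain ⟨r, hr⟩ := hpo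
  have hr1 : 1 ≤ r := by omega
  have hX : 0 < X := by rw [hyX]; positivity
  have hmain : x + p * (y + 1) = t * (p ^ 2 + p + 1) := by
    have hp1 : (p - 1) ≠ 0 := by omega
    apply mul_left_cancel₀ hp1
    linear_combination h - p * ht
  -- t ≥ 2
  have htne : t ≠ 1 := by
    rintro rfl
    obtain ⟨w, hw⟩ := h4
    have : p ^ 2 = 4 * w - 1 := by linarith
    have h2 : (2 * r + 1) ^ 2 = 4 * w - 1 := by rw [← hr]; exact this
    have h3 : 4 * (w - r ^ 2 - r) = 2 := by linarith [h2, (by ring : (2 * r + 1) ^ 2 = 4 * r ^ 2 + 4 * r + 1)]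
    omega
  have ht2 : 2 ≤ t := by omega
  have h2x : 2 * x ≤ X := Int.le_of_dvd hX hxX
  -- 2R ≤ 2p
  have hR1 : R ≤ p := by
    by_contra hcon
    push Not at hcon
    have e1 : X ≤ 2 * p * y := by nlinarith
    nlinarith
  have hR2 : R < p := lt_of_le_of_ne hR1 (Ne.symm hRp)
  -- 2R ≥ p
  have hR3 : p < 2 * R := by
    by_contra hcon
    push Not at hcon
    have hc2 : 2 * R ≤ p - 1 := by omega
    have e1 : X ≤ (p - 1) * y := by rw [hyX]; nlinarith
    have e2 : p * X ≤ (p - 1) * (p * y) := by nlinarith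
    nlinarith
  have hxeq : x = y * (2 * R - p) + (t - 1) * (p + 1) := by
    linear_combination hmain + ht + hyX
  have hxgt : y < x := by nlinarith
  have hyx : 2 * y ∣ x := by
    rcases hxy with hxy | hxy
    · exfalso
      have := Int.le_of_dvd hy hxy
      linarith
    · exact hxy
  have h1 : 2 * y ∣ t + p ^ 2 := by
    rw [h]
    have e1 : 2 * y ∣ p * X := ⟨p * R, by rw [hyX]; ring⟩
    have e2 : 2 * y ∣ (p - 1) * x := Dvd.dvd.mul_left hyx _
    have e3 : 2 * y ∣ p * (p - 1) * y := ⟨p * r, by rw [hr]; ring⟩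
    exact dvd_sub (dvd_sub e1 e2) e3
  obtain ⟨j, hj⟩ := h1
  have hj0 : 0 < j := by
    have : 0 < 2 * y * j := by rw [← hj]; positivity
    exact (mul_pos_iff_of_pos_left (by linarith)).1 this
  -- R (t + p^2) = j X = j (t p^2 + 1)
  have hk : R * (t + p ^ 2) = j * (t * p ^ 2 + 1) := by
    rw [ht, hj, hyX]; ring
  -- δ = t j - R ; R t = j + δ p^2
  have hd : R * t = j + (t * j - R) * p ^ 2 := by linarith
  -- t ≤ p
  have hy2 : 2 * y ≤ t + p ^ 2 := by
    rw [hj]; nlinarith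
  have htp : t ≤ p := by
    have e1 : X ≤ R * (t + p ^ 2) := by rw [hyX]; nlinarith
    have e2 : t * p ^ 2 + 1 ≤ (p - 1) * (t + p ^ 2) := by nlinarith
    -- t (p^2 - p + 1) ≤ p^3 - p^2 - 1
    by_contra hcon
    push Not at hcon
    nlinarith
  have hRt : R * t < p ^ 2 := by nlinarith
  rcases lt_trichotomy (t * j - R) 0 with hlt | heq | hgt
  · have e1 : R * t ≤ j - p ^ 2 := by nlinarith [sq_nonneg p]
    nlinarith
  · rw [heq] at hd
    have e1 : R = t * j := by linarith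
    have e2 : t * j * t = j := by rw [← e1]; linarith
    have e3 : j * 4 ≤ j * (t * t) := mul_le_mul_of_nonneg_left (by nlinarith) hj0.le
    nlinarith
  · have e1 : j + p ^ 2 ≤ R * t := by nlinarith [sq_nonneg p]
    linarith


/-- `d₂ = y p^(m-1)`, `d₁ = x p^(m-1)`, `m ≥ 3`. -/
lemma caseB1 (p t Q X x y : ℤ) (hp : 3 ≤ p) (hQ : p ^ 2 ≤ Q)
    (hxy : 2 * x ≤ y) (hyX : 2 * y ≤ X)
    (ht0 : 0 < t) (ht : t * Q = X - 1)
    (h : t = p * (X - p) - (p - 1) * (x + y)) : False := by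
  have h6 : t * p ^ 2 ≤ X - 1 := by rw [← ht]; exact mul_le_mul_of_nonneg_left hQ ht0.le
  have h1 : (p + 3) * X - 4 * p ^ 2 ≤ 4 * t := by nlinarith
  have h2 : p ^ 2 + 1 ≤ X := by nlinarith [sq_nonneg p]
  have h3 : p ^ 2 * ((p + 3) * X - 4 * p ^ 2) ≤ 4 * (X - 1) := by nlinarith [sq_nonneg p]
  have h4 : 0 ≤ (X - (p ^ 2 + 1)) * (p ^ 3 + 3 * p ^ 2 - 4) := by
    apply mul_nonneg (by linarith)
    have : (0:ℤ) ≤ p - 3 := by linarith
    have e : p ^ 3 + 3 * p ^ 2 - 4 = (p-3)^3 + 12*(p-3)^2 + 45*(p-3) + 50 := by ring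
    rw [e]; positivity
  have h5 : (0:ℤ) < p ^ 5 - p ^ 4 + p ^ 3 - p ^ 2 := by
    have : (0:ℤ) ≤ p - 3 := by linarith
    have e : p ^ 5 - p ^ 4 + p ^ 3 - p ^ 2 = p ^ 2 * (p ^ 2 + 1) * (p - 1) := by ring
    rw [e]; 
    have : (0:ℤ) < p - 1 := by linarith
    positivity
  nlinarith

/-- `d₂ = y p^(m-1)`, `d₁ = x p^b`, `b ≤ m-2`, `m ≥ 3`: `X < 2p`. -/
lemma caseB2_X (p u X x y D B : ℤ) (hp : 3 ≤ p) (hu : p ≤ u)
    (hx : 0 < x) (hxX : 2 * x ≤ X) (hyX : 2 * y ≤ X) (hD : 0 < D) (hDu : D ≤ u)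
    (hB : B = p * (X - p) - (p - 1) * y)
    (h : B * (p * u) = (X - 1) + (p - 1) * (x * D)) : X < 2 * p := by
  by_contra hcon
  push Not at hcon
  have h1 : (p + 1) * X - 2 * p ^ 2 ≤ 2 * B := by nlinarith
  have h2 : 2 * (x * D) ≤ X * u := by nlinarith
  have h3 : ((p + 1) * X - 2 * p ^ 2) * (p * u) ≤ 2 * (X - 1) + (p - 1) * (X * u) := by
    have e1 : ((p + 1) * X - 2 * p ^ 2) * (p * u) ≤ 2 * B * (p * u) :=
      mul_le_mul_of_nonneg_right h1 (by nlinarith)
    have e2 : (p - 1) * (2 * (x * D)) ≤ (p - 1) * (X * u) :=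
      mul_le_mul_of_nonneg_left h2 (by linarith)
    nlinarith
  have h4 : u * (p ^ 2 * (X - 2 * p) + X) ≤ 2 * (X - 1) := by
    have e : u * (p ^ 2 * (X - 2 * p) + X)
      = ((p + 1) * X - 2 * p ^ 2) * (p * u) - (p - 1) * (X * u) := by ring
    rw [e]; linarith
  have h5 : X ≤ p ^ 2 * (X - 2 * p) + X := by nlinarith [sq_nonneg p]
  have h6 : u * X ≤ u * (p ^ 2 * (X - 2 * p) + X) := mul_le_mul_of_nonneg_left h5 (by linarith)
  nlinarith

/-- `d₂ = y p^m`, `d₁ = x p^b`, `b ≤ m - 2`, `m ≥ 3`: `3 A ≤ p`. -/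
lemma caseA3_A (p u X x y D A S : ℤ) (hp : 3 ≤ p) (hu : p ≤ u) (hS : (p + 1) * u + 1 ≤ S)
    (hx : 0 < x) (hxX : 2 * x ≤ X) (hyA : 2 * y ≤ A + p) (hD : 0 < D) (hDu : D ≤ u)
    (hA : 0 < A) (hX : X = A + p + (p - 1) * y)
    (h : A * S = 1 + y + x * D) : 3 * A ≤ p := by
  by_contra hcon
  push Not at hcon
  have h1 : 4 * x ≤ (A + p) * (p + 1) := by nlinarith
  have h2 : 4 * (x * D) ≤ (A + p) * (p + 1) * u := by
    have e1 : 4 * (x * D) ≤ 4 * (x * u) := by nlinarith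
    have e2 : 4 * x * u ≤ (A + p) * (p + 1) * u := mul_le_mul_of_nonneg_right h1 (by linarith)
    linarith
  have h3 : A * ((p + 1) * u + 1) ≤ A * S := mul_le_mul_of_nonneg_left hS hA.le
  have h4 : 4 * A * ((p + 1) * u + 1) ≤ 4 + 2 * (A + p) + (A + p) * (p + 1) * u := by linarith
  have h5 : u * (p + 1) * (3 * A - p) + 2 * A ≤ 4 + 2 * p := by nlinarith
  have h6 : u * (p + 1) * 1 ≤ u * (p + 1) * (3 * A - p) :=
    mul_le_mul_of_nonneg_left (by linarith) (by nlinarith)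
  nlinarith

/-- both `d₁, d₂ ≤ (X/2) p^(m-2)`, `m ≥ 3`. -/
lemma case0 (p u X S d₁ d₂ : ℤ) (hp : 3 ≤ p) (hu : p ≤ u) (hS : (p + 1) * u + 1 ≤ S)
    (h1 : 2 * d₁ ≤ X * u) (h2 : 2 * d₂ ≤ X * u) (hne : d₁ ≠ d₂) (hXp : p + 1 ≤ X)
    (h : (X - p) * S = 1 + d₁ + d₂) : False := by
  have h3 : (X - p) * ((p + 1) * u + 1) ≤ (X - p) * S :=
    mul_le_mul_of_nonneg_left hS (by linarith)
  have h4 : (X - p) * ((p + 1) * u + 1) ≤ 1 + X * u := by linarith
  have h5 : (X - (p + 1)) * (p * u + 1) ≤ 0 := by nlinarith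
  have h6 : X = p + 1 := by
    by_contra hcon
    have : p + 2 ≤ X := by omega
    have : 0 < p * u + 1 := by nlinarith
    nlinarith
  subst h6
  have h7 : S = 1 + d₁ + d₂ := by linarith
  apply hne
  linarith


lemma two_00 (p X x y : ℤ) (hp : 3 ≤ p) (hxy : 2 * x ≤ y) (hyX : 2 * y ≤ X) (hX : p + 1 ≤ X)
    (h : (X - p) * (p + 1) = 1 + x + y) : p = 3 ∧ X = 4 := by
  have h1 : 4 * ((X - p) * (p + 1)) ≤ 4 + 3 * X := by rw [h]; linarith
  have hp3 : p = 3 := by
    by_contra hcon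
    have : 4 ≤ p := by omega
    nlinarith
  subst hp3
  refine ⟨rfl, ?_⟩
  omega

lemma two_11 (p X x y : ℤ) (hp : 3 ≤ p) (hpo : Odd p) (hx : 0 < x) (hxy : 2 * x ∣ y)
    (hy : 0 < y)
    (hx1 : x = 1 ∨ 2 ∣ x) (hyX : 2 * y ≤ X) (hXe : 2 ∣ X)
    (h : (X - p) * (p + 1) = 1 + x * p + y * p) : False := by
  have hxy' : 2 * x ≤ y := Int.le_of_dvd hy hxy
  have h0 : p ∣ X - 1 := ⟨x + y - (X - p) + 1, by linear_combination h⟩
  obtain ⟨t, ht⟩ := h0
  have hX : X = 1 + p * t := by linarith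
  have h1 : 4 * ((X - p) * (p + 1)) ≤ 4 + 3 * (X * p) := by rw [h]; nlinarith
  have h2 : X < 4 * p := by nlinarith
  have h3 : t < 4 := by
    by_contra hcon
    push Not at hcon
    nlinarith
  have h4 : 0 < t := by
    by_contra hcon
    push Not at hcon
    nlinarith
  obtain ⟨r, hr⟩ := hpo
  obtain ⟨w, hw⟩ := hXe
  obtain ⟨z, hz⟩ := hxy
  interval_cases t
  · -- t = 1
    have : p * (x + y) = p := by rw [hX] at h; linarith
    have : p * (x + y - 1) = 0 := by linarith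
    rcases mul_eq_zero.1 this with h5 | h5
    · omega
    · omega
  · -- t = 2 : parity
    omega
  · -- t = 3
    have : p * (x + y) = p * (2 * p + 3) := by rw [hX] at h; linarith
    have h5 : x + y = 2 * p + 3 := mul_left_cancel₀ (by omega) this
    have h6 : x = 1 := by
      rcases hx1 with hx1 | hx1
      · exact hx1
      · exfalso
        obtain ⟨v, hv⟩ := hx1
        have : y = 2 * (x * z) := by rw [hz]; ring
        omega
    omega

lemma two_01 (p X x y : ℤ) (hp : 3 ≤ p) (hpo : Odd p) (hx : 0 < x) (hxX : 2 * x ≤ X)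
    (hy1 : y = 1 ∨ 2 ∣ y) (hx1 : x = 1 ∨ 2 ∣ x)
    (hyX : 2 * y ≤ X) (hXe : 4 ∣ X) (hXp : p + 1 ≤ X)
    (h : (X - p) * (p + 1) = 1 + x + y * p) : False := by
  have h1 : 2 * ((X - p) * (p + 1)) ≤ 2 + X * (p + 1) := by rw [h]; nlinarith
  have h2 : X ≤ 2 * p := by
    by_contra hcon
    push Not at hcon
    nlinarith
  obtain ⟨r, hr⟩ := hpo
  obtain ⟨w, hw⟩ := hXe
  have h3 : X ≤ 2 * p - 2 := by omega
  have h0 : p ∣ X - p - 1 - x := ⟨y - (X - p), by linear_combination h⟩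
  have h4 : X - p - 1 - x = 0 := by
    obtain ⟨v, hv⟩ := h0
    have : v = 0 := by
      have a1 : p * v < p * 1 := by rw [← hv]; omega
      have a2 : p * (-1) < p * v := by rw [← hv]; omega
      have := lt_of_mul_lt_mul_left a1 (by omega)
      have := lt_of_mul_lt_mul_left a2 (by omega)
      omega
    rw [hv, this]; ring
  have h5 : (1 + x) * p = y * p := by
    have : X - p = 1 + x := by linarith
    rw [this] at h; linarith
  have h6 : 1 + x = y := mul_right_cancel₀ (by omega) h5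
  rcases hx1 with hx1 | ⟨v, hv⟩
  · omega
  · rcases hy1 with hy1 | ⟨z, hz⟩
    · omega
    · omega

lemma two_02 (p X x y : ℤ) (hp : 3 ≤ p) (hpo : Odd p) (hx : 0 < x) (hy : 0 < y)
    (hxX : 2 * x ≤ X)
    (hy1 : y = 1 ∨ 2 ∣ y) (hx1 : x = 1 ∨ 2 ∣ x)
    (hyX : 2 * y ∣ X) (hXe : 4 ∣ X) 
    (h : (X - p) * (p + 1) = 1 + x + y * p ^ 2) : p = 3 ∧ X = 8 := by
  obtain ⟨r, hr⟩ := hpo
  obtain ⟨A, hA⟩ : ∃ A, A = X - p - (p - 1) * y := ⟨_, rfl⟩
  have hE : A * (p + 1) = 1 + x + y := by rw [hA]; linear_combination h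
  have hA0 : 0 < A := by
    by_contra hcon
    push Not at hcon
    nlinarith
  have h2y : 2 * y ∣ A + p := by
    have : A + p = X - 2 * y * r := by rw [hA, hr]; ring
    rw [this]
    exact dvd_sub hyX (Dvd.intro _ rfl)
  have h2y' : 2 * y ≤ A + p := Int.le_of_dvd (by linarith) h2y
  have hpar : (1 + x + y) % 2 = 0 := by
    rw [← hE, hr]
    have : A * (2 * r + 1 + 1) = 2 * (A * (r + 1)) := by ring
    rw [this]; omega
  rcases hx1 with hx1 | ⟨v, hv⟩
  · -- x = 1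
    have h3 : A * (2 * p + 1) ≤ p + 4 := by nlinarith
    have hA1 : A = 1 := by
      by_contra hcon
      have : 2 ≤ A := by omega
      nlinarith
    subst hA1
    have : p = 3 := by omega
    subst this
    have hy' : y = 2 := by omega
    subst hy'
    refine ⟨rfl, ?_⟩
    omega
  · rcases hy1 with hy1 | ⟨z, hz⟩
    · subst hy1
      have h3 : A * (2 * p + 1) ≤ 2 * p + 3 := by nlinarith
      have hA1 : A = 1 := by
        by_contra hcon
        have : 2 ≤ A := by omega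
        nlinarith
      obtain ⟨w, hw⟩ := hXe
      omega
    · omega

lemma two_22 (p X x y : ℤ) (hp : 3 ≤ p) (hpo : Odd p) (hx : 0 < x) (hy : 0 < y)
    (hxy : 2 * x ∣ y) (hx1 : x = 1 ∨ 2 ∣ x)
    (hyX : 2 * y ∣ X) (hXe : 4 ∣ X) 
    (h : (X - p) * (p + 1) = 1 + x * p ^ 2 + y * p ^ 2) : False := by
  obtain ⟨r, hr⟩ := hpo
  have hp1 : p - 1 ≠ 0 := by omega
  obtain ⟨t, ht⟩ : ∃ t, t = X - p - (p - 1) * (x + y) := ⟨_, rfl⟩
  have hX0 : 0 < X - 1 := by nlinarith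
  have h1 : t * p ^ 2 = X - 1 := by rw [ht]; linear_combination (p - 1) * h
  have ht0 : 0 < t := by
    by_contra hcon
    push Not at hcon
    nlinarith [sq_nonneg p]
  have h2 : t * (p + 1) = 1 + x + y := by
    apply mul_left_cancel₀ hp1
    rw [ht] at h1 ⊢
    linear_combination h1
  obtain ⟨z, hz⟩ := hxy
  have hpar : (1 + x + y) % 2 = 0 := by
    rw [← h2, hr]
    have : t * (2 * r + 1 + 1) = 2 * (t * (r + 1)) := by ring
    rw [this]; omega
  have hx' : x = 1 := by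
    rcases hx1 with hx1 | ⟨v, hv⟩
    · exact hx1
    · exfalso
      have : y = 2 * (x * z) := by rw [hz]; ring
      omega
  subst hx'
  have h2y : 2 * y ∣ t + 2 * p - 1 := by
    have : t + 2 * p - 1 = X - 2 * y * r := by rw [ht, hr]; ring
    rw [this]
    exact dvd_sub hyX (Dvd.intro _ rfl)
  have h2y' : 2 * y ≤ t + 2 * p - 1 := Int.le_of_dvd (by linarith) h2y
  have h3 : t * (2 * p + 1) ≤ 2 * p + 3 := by nlinarith
  have ht1 : t = 1 := by
    by_contra hcon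
    have : 2 ≤ t := by omega
    nlinarith
  subst ht1
  obtain ⟨w, hw⟩ := hXe
  have h4 : (2 * r + 1) ^ 2 = 4 * w - 1 := by rw [← hr]; linarith
  have h5 : 4 * (w - r ^ 2 - r) = 2 := by
    linarith [h4, (by ring : (2 * r + 1) ^ 2 = 4 * r ^ 2 + 4 * r + 1)]
  omega

lemma two_12 (p X x y M : ℤ) (hp : 3 ≤ p) (hpo : Odd p) (hx : 0 < x) (hy : 0 < y)
    (hX : X = 2 * M * x) (hM : 0 < M)
    (hy1 : y = 1 ∨ 2 ∣ y) (hx1 : x = 1 ∨ 2 ∣ x)
    (hyX : 2 * y ∣ X)
    (h : (X - p) * (p + 1) = 1 + x * p + y * p ^ 2) : p = 5 ∧ X = 16 := by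
  obtain ⟨r, hr⟩ := hpo
  obtain ⟨A, hA⟩ : ∃ A, A = X - p - (p - 1) * y := ⟨_, rfl⟩
  have hE : A * (p + 1) = 1 + y + x * p := by rw [hA]; linear_combination h
  have hA0 : 0 < A := by
    by_contra hcon
    push Not at hcon
    nlinarith
  have h2y : 2 * y ∣ A + p := by
    have : A + p = X - 2 * y * r := by rw [hA, hr]; ring
    rw [this]
    exact dvd_sub hyX (Dvd.intro _ rfl)
  have h2y' : 2 * y ≤ A + p := Int.le_of_dvd (by linarith) h2y
  have hpar : (1 + y + x * p) % 2 = 0 := by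
    rw [← hE, hr]
    have : A * (2 * r + 1 + 1) = 2 * (A * (r + 1)) := by ring
    rw [this]; omega
  rcases hx1 with hx1 | ⟨v, hv⟩
  · exfalso
    subst hx1
    have h3 : A * (2 * p + 1) ≤ 3 * p + 2 := by nlinarith
    have hA1 : A = 1 := by
      by_contra hcon
      have : 2 ≤ A := by omega
      nlinarith
    subst hA1
    linarith
  · rcases hy1 with hy1 | ⟨z, hz⟩
    · subst hy1
      -- W = x
      have h3 : (p + 1) * (2 * p + x - 1) + 2 - x = x * (2 * M) * (p + 1) := by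
        have : A = 2 * M * x - 2 * p + 1 := by rw [hA, hX]; ring
        rw [this] at hE
        linear_combination (-1) * hE
      have h4 : (p + 1) ∣ x - 2 := ⟨2 * p + x - 1 - x * (2 * M), by linear_combination (-1) * h3⟩
      have hx2 : 2 ≤ x := by omega
      have h5 : x < 2 * p - 1 := by
        have e1 : 2 * x * (p + 1) ≤ x * (2 * M) * (p + 1) := by
          have : 2 * x ≤ x * (2 * M) := by nlinarith
          exact mul_le_mul_of_nonneg_right this (by linarith)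
        have e2 : 2 * x * (p + 1) ≤ (p + 1) * (2 * p + x - 1) := by linarith
        have e3 : (p + 1) * (2 * x) ≤ (p + 1) * (2 * p + x - 1) := by linarith
        have e4 := le_of_mul_le_mul_left e3 (by linarith)
        have e5 : 2 * x ≠ 2 * p + x - 1 := by
          intro e6
          have : x = 2 * p - 1 := by linarith
          omega
        omega
      obtain ⟨w, hw⟩ := h4
      have hw0 : 0 ≤ w := by
        by_contra hcon
        push Not at hcon
        nlinarith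
      have hw1 : w < 2 := by
        by_contra hcon
        push Not at hcon
        nlinarith
      interval_cases w
      · have hx2' : x = 2 := by linarith
        subst hx2'
        have e : (p + 1) * (2 * p + 1 - 4 * M) = 0 := by linarith
        rcases mul_eq_zero.1 e with e | e
        · omega
        · omega
      · have hx3 : x = p + 3 := by linarith
        subst hx3
        have e : (p + 1) * (3 * p + 1 - (p + 3) * (2 * M)) = 0 := by linarith
        have e2 : 3 * p + 1 - (p + 3) * (2 * M) = 0 := by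
          rcases mul_eq_zero.1 e with e | e
          · omega
          · exact e
        have hM1 : M = 1 := by
          by_contra hcon
          have : 2 ≤ M := by omega
          nlinarith
        subst hM1
        have : p = 5 := by linarith
        subst this
        exact ⟨rfl, by rw [hX]; norm_num⟩
    · exfalso
      have : x * p = 2 * (v * p) := by rw [hv]; ring
      omega


end Pool.Agent.Hhelper81.TwoNearPerfectAux
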