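import Mathlib
import Pool.Agent.Hhelper81.TwoNearPerfectAux

namespace Pool.Agent.Hhelper81.TwoNearPerfectMain

open Finset Pool.Agent.Hhelper81.TwoNearPerfectAux

lemma two_mul_pow_dvd {a k : ℕ} (h : a ≤ k) : (2:ℤ) * 2 ^ a ∣ 2 ^ (k + 1) := by
  rw [← pow_succ']; exact pow_dvd_pow 2 (by omega)

lemma two_mul_pow_dvd' {a c : ℕ} (h : a < c) : (2:ℤ) * 2 ^ a ∣ 2 ^ c := by
  rw [← pow_succ']; exact pow_dvd_pow 2 (by omega)

lemma pow_one_or_even (a : ℕ) : (2:ℤ) ^ a = 1 ∨ (2:ℤ) ∣ 2 ^ a := by
  rcases Nat.eq_zero_or_pos a with h | h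
  · left; simp [h]
  · right; exact dvd_pow_self 2 (by omega)

lemma main_ge3 (p : ℕ) (hp : p.Prime) (hodd : Odd p) (k a b c e n : ℕ) (hn : 1 ≤ n)
    (ha : a ≤ k) (hc : c ≤ k) (hbe : b < e ∨ (b = e ∧ a < c)) (hem : e ≤ n + 2)
    (h : ((2:ℤ) ^ (k + 1) - p) * (∑ i ∈ range (n + 2), (p:ℤ) ^ i)
      = 1 + 2 ^ a * p ^ b + 2 ^ c * p ^ e) :
    n = 1 ∧ (2:ℤ) ^ (k + 1) = p + 1 := by
  have hp3n : 3 ≤ p := by
    have := hp.two_le
    rcases hodd with ⟨r, hr⟩
    omega
  have hp3 : (3:ℤ) ≤ p := by exact_mod_cast hp3n
  have hpo : Odd (p:ℤ) := by exact_mod_cast hodd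
  obtain ⟨r, hr⟩ := id hpo
  set S : ℤ := ∑ i ∈ range (n + 2), (p:ℤ) ^ i with hSdef
  have hgeom : S * ((p:ℤ) - 1) = (p:ℤ) ^ (n + 2) - 1 := by
    rw [hSdef]; exact geom_sum_mul (p:ℤ) (n + 2)
  have hu0 : (0:ℤ) < (p:ℤ) ^ n := by positivity
  have hpu : (p:ℤ) ≤ (p:ℤ) ^ n := by
    calc (p:ℤ) = (p:ℤ) ^ 1 := (pow_one _).symm
      _ ≤ (p:ℤ) ^ n := pow_le_pow_right₀ (by linarith) hn
  have hSlow : ((p:ℤ) + 1) * (p:ℤ) ^ n + 1 ≤ S := by
    have e1 : S = ∑ i ∈ range n, (p:ℤ) ^ i + (p:ℤ) ^ n + (p:ℤ) ^ (n + 1) := by
      rw [hSdef, sum_range_succ, sum_range_succ]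
    have e2 : 1 ≤ ∑ i ∈ range n, (p:ℤ) ^ i := by
      obtain ⟨n', rfl⟩ : ∃ n', n = n' + 1 := ⟨n - 1, by omega⟩
      rw [sum_range_succ']
      have : 0 ≤ ∑ i ∈ range n', (p:ℤ) ^ (i + 1) := sum_nonneg (fun i _ => by positivity)
      simp only [pow_zero]; linarith
    rw [e1, pow_succ]; linarith
  have hS0 : 0 < S := by nlinarith
  set X : ℤ := (2:ℤ) ^ (k + 1) with hXdef
  set x : ℤ := (2:ℤ) ^ a with hxdef
  set y : ℤ := (2:ℤ) ^ c with hydef
  have hx : 0 < x := by positivity
  have hy : 0 < y := by positivity
  have hX0 : 0 < X := by positivity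
  have hxX : 2 * x ∣ X := two_mul_pow_dvd ha
  have hyX : 2 * y ∣ X := two_mul_pow_dvd hc
  have hxX' : 2 * x ≤ X := Int.le_of_dvd hX0 hxX
  have hyX' : 2 * y ≤ X := Int.le_of_dvd hX0 hyX
  have hX2 : (2:ℤ) ∣ X := dvd_pow_self 2 (by omega)
  have hXp : (p:ℤ) + 1 ≤ X := by
    have hpos : 0 < (X - p) * S := by rw [h]; positivity
    have := (pos_iff_pos_of_mul_pos hpos).2 hS0
    linarith
  have hk1 : 1 ≤ k := by
    by_contra hcon
    have : k = 0 := by omega
    rw [hXdef, this] at hXp
    norm_num at hXp
    linarith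
  have h4X : (4:ℤ) ∣ X := by
    have : (4:ℤ) = 2 ^ 2 := by norm_num
    rw [this]; exact pow_dvd_pow 2 (by omega)
  have hp1 : (p:ℤ) - 1 ≠ 0 := by linarith
  -- multiplied equation
  have hM : (X - p) * ((p:ℤ) ^ (n + 2) - 1) = (p - 1) * (1 + x * p ^ b + y * p ^ e) := by
    rw [← hgeom, ← h]; ring
  rcases lt_or_ge e (n + 1) with he | he
  · -- case 0
    exfalso
    have hen : e ≤ n := by omega
    have hbn : b ≤ n := by omega
    have e1 : (p:ℤ) ^ b ≤ (p:ℤ) ^ n := pow_le_pow_right₀ (by linarith) hbn
    have e2 : (p:ℤ) ^ e ≤ (p:ℤ) ^ n := pow_le_pow_right₀ (by linarith) hen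
    have f1 : (0:ℤ) < (p:ℤ) ^ b := by positivity
    have f2 : (0:ℤ) < (p:ℤ) ^ e := by positivity
    refine case0 (p:ℤ) ((p:ℤ) ^ n) X S (x * p ^ b) (y * p ^ e) hp3 hpu hSlow ?_ ?_ ?_ hXp
      (by rw [h])
    · nlinarith
    · nlinarith
    · intro heq
      rcases hbe with hbe | ⟨hbe, hac⟩
      · -- valuations
        have e3 : x * (p:ℤ) ^ b = (y * (p:ℤ) ^ (e - b)) * (p:ℤ) ^ b := by
          rw [heq, mul_assoc, ← pow_add]; congr 2; omega
        have e4 : x = y * (p:ℤ) ^ (e - b) := mul_right_cancel₀ (ne_of_gt f1) e3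
        have e5 : (p:ℤ) ∣ x := by
          rw [e4]; exact Dvd.dvd.mul_left (dvd_pow_self _ (by omega)) _
        have e6 : p ∣ 2 ^ a := by
          have : ((p:ℕ):ℤ) ∣ ((2 ^ a : ℕ):ℤ) := by push_cast; exact e5
          exact_mod_cast this
        have e7 : p ∣ 2 := hp.dvd_of_dvd_pow e6
        have := Nat.le_of_dvd (by norm_num) e7
        omega
      · subst hbe
        have e3 : x = y := mul_right_cancel₀ (ne_of_gt f1) heq
        have : (2:ℤ) ^ a < 2 ^ c := pow_lt_pow_right₀ (by norm_num) hac
        rw [← hxdef, ← hydef] at this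
        linarith
  · rcases Nat.lt_or_ge e (n + 2) with he2 | he2
    · -- e = n + 1
      have he3 : e = n + 1 := by omega
      subst he3
      rcases Nat.lt_or_ge b (n + 1) with hb | hb
      · -- b ≤ n
        have hbn : b ≤ n := by omega
        have hD : (0:ℤ) < (p:ℤ) ^ b := by positivity
        have hDu : (p:ℤ) ^ b ≤ (p:ℤ) ^ n := pow_le_pow_right₀ (by linarith) hbn
        obtain ⟨B, hB⟩ : ∃ B, B = (p:ℤ) * (X - p) - (p - 1) * y := ⟨_, rfl⟩
        have hBeq : B * ((p:ℤ) * (p:ℤ) ^ n) = (X - 1) + ((p:ℤ) - 1) * (x * (p:ℤ) ^ b) := by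
          rw [hB]
          have e1 : (p:ℤ) ^ (n + 2) = p ^ 2 * p ^ n := by ring
          have e2 : (p:ℤ) ^ (n + 1) = p * p ^ n := by ring
          rw [e1, e2] at hM
          linear_combination hM
        have hX2p : X < 2 * p :=
          caseB2_X (p:ℤ) ((p:ℤ) ^ n) X x y ((p:ℤ) ^ b) B hp3 hpu hx hxX' hyX' hD hDu hB hBeq
        have hX2p' : X ≤ 2 * p - 2 := by
          obtain ⟨w, hw⟩ := hX2
          omega
        rcases Nat.lt_or_ge b 1 with hb0 | hb1
        · -- b = 0
          exfalso
          have : b = 0 := by omega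
          subst this
          simp only [pow_zero, mul_one] at hBeq
          have hB1 : 0 < B := by
            by_contra hcon
            push Not at hcon
            have : B * ((p:ℤ) * (p:ℤ) ^ n) ≤ 0 :=
              mul_nonpos_of_nonpos_of_nonneg hcon (by positivity)
            nlinarith
          have e1 : (p:ℤ) * p ≤ B * ((p:ℤ) * (p:ℤ) ^ n) := by
            have : (p:ℤ) * p ≤ p * p ^ n := by nlinarith
            nlinarith
          have e2 : x ≤ p - 1 := by linarith
          nlinarith
        · rcases Nat.lt_or_ge b 2 with hb2 | hb2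
          · -- b = 1
            have : b = 1 := by omega
            subst this
            simp only [pow_one] at hBeq
            have e1 : (p:ℤ) ∣ X - 1 :=
              ⟨B * (p:ℤ) ^ n - (p - 1) * x, by linear_combination (-1) * hBeq⟩
            obtain ⟨w, hw⟩ := e1
            have hw1 : w = 1 := by
              have a1 : (p:ℤ) * w < p * 2 := by rw [← hw]; linarith
              have a2 : (p:ℤ) * 0 < p * w := by rw [← hw]; linarith
              have b1 := lt_of_mul_lt_mul_left a1 (by linarith)
              have b2 := lt_of_mul_lt_mul_left a2 (by linarith)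
              omega
            rw [hw1] at hw
            have hXeq : X = p + 1 := by linarith
            refine ⟨?_, hXeq⟩
            have hB2 : B * (p:ℤ) ^ n = 1 + (p - 1) * x := by
              have : (p:ℤ) * (B * (p:ℤ) ^ n) = p * (1 + (p - 1) * x) := by
                rw [hXeq] at hBeq; linear_combination hBeq
              exact mul_left_cancel₀ (by linarith) this
            have hB1 : 0 < B := by
              by_contra hcon
              push Not at hcon
              have : B * (p:ℤ) ^ n ≤ 0 :=
                mul_nonpos_of_nonpos_of_nonneg hcon (by positivity)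
              nlinarith
            have hy1 : y = 1 := by
              by_contra hcon
              have : 2 ≤ y := by omega
              rw [hXeq] at hB
              nlinarith
            have hBone : B = 1 := by rw [hB, hXeq, hy1]; ring
            rw [hBone, one_mul] at hB2
            by_contra hn1
            have hn2 : 2 ≤ n := by omega
            have : (p:ℤ) ^ 2 ≤ (p:ℤ) ^ n := pow_le_pow_right₀ (by linarith) hn2
            rw [hB2] at this
            rw [hXeq] at hxX'
            nlinarith
          · -- b ≥ 2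
            exfalso
            have e0 : (p:ℤ) ^ 2 ∣ (p:ℤ) ^ b := pow_dvd_pow _ hb2
            have e1 : (p:ℤ) ^ 2 ∣ X - 1 := by
              have : X - 1 = B * ((p:ℤ) * (p:ℤ) ^ n) - ((p:ℤ) - 1) * (x * (p:ℤ) ^ b) := by
                linarith
              rw [this]
              refine dvd_sub ?_ ?_
              · have : (p:ℤ) * (p:ℤ) ^ n = (p:ℤ) ^ (n + 1) := by ring
                rw [this]
                exact Dvd.dvd.mul_left (pow_dvd_pow _ (by omega)) _
              · exact Dvd.dvd.mul_left (Dvd.dvd.mul_left e0 _) _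
            have e2 := Int.le_of_dvd (by linarith) e1
            nlinarith
      · -- b = n + 1
        exfalso
        rcases hbe with hbe | ⟨hbe, hac⟩
        · omega
        · subst hbe
          obtain ⟨t, ht⟩ : ∃ t, t = (p:ℤ) * (X - p) - (p - 1) * (x + y) := ⟨_, rfl⟩
          have htQ : t * (p:ℤ) ^ (n + 1) = X - 1 := by
            rw [ht]
            have e1 : (p:ℤ) ^ (n + 2) = p * p ^ (n + 1) := by ring
            rw [e1] at hM
            linear_combination hM
          have hQ0 : (0:ℤ) < (p:ℤ) ^ (n + 1) := by positivity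
          have ht0 : 0 < t := by
            have : 0 < t * (p:ℤ) ^ (n + 1) := by rw [htQ]; linarith
            exact (pos_iff_pos_of_mul_pos this).2 hQ0
          have hQ : (p:ℤ) ^ 2 ≤ (p:ℤ) ^ (n + 1) := pow_le_pow_right₀ (by linarith) (by omega)
          have hxy : 2 * x ≤ y := Int.le_of_dvd hy (two_mul_pow_dvd' hac)
          exact caseB1 (p:ℤ) t _ X x y hp3 hQ hxy hyX' ht0 htQ ht
    · -- e = n + 2
      exfalso
      have he3 : e = n + 2 := by omega
      subst he3
      rcases Nat.lt_or_ge b (n + 1) with hb | hb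
      · -- b ≤ n
        have hbn : b ≤ n := by omega
        have hD : (0:ℤ) < (p:ℤ) ^ b := by positivity
        have hDu : (p:ℤ) ^ b ≤ (p:ℤ) ^ n := pow_le_pow_right₀ (by linarith) hbn
        obtain ⟨A, hA⟩ : ∃ A, A = X - p - (p - 1) * y := ⟨_, rfl⟩
        have hXA : X = A + p + (p - 1) * y := by rw [hA]; ring
        have hAeq : A * S = 1 + y + x * (p:ℤ) ^ b := by
          rw [hA]
          linear_combination h - y * hgeom
        have hA0 : 0 < A := by
          have : 0 < A * S := by rw [hAeq]; positivity
          exact (pos_iff_pos_of_mul_pos this).2 hS0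
        have h2y : 2 * y ∣ A + p := by
          have : A + p = X - 2 * y * r := by rw [hA, hr]; ring
          rw [this]
          exact dvd_sub hyX (Dvd.intro _ rfl)
        have h2y' : 2 * y ≤ A + p := Int.le_of_dvd (by linarith) h2y
        have h3A : 3 * A ≤ p :=
          caseA3_A (p:ℤ) ((p:ℤ) ^ n) X x y ((p:ℤ) ^ b) A S hp3 hpu hSlow hx hxX' h2y' hD hDu
            hA0 hXA hAeq
        rcases Nat.eq_zero_or_pos b with hb0 | hb1
        · subst hb0
          simp only [pow_zero, mul_one] at hAeq
          have e1 : 4 * x ≤ (A + p) * (p + 1) := by nlinarith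
          have e2 : S ≤ A * S := by nlinarith
          have e3 : ((p:ℤ) + 1) * p + 1 ≤ S := by nlinarith
          nlinarith
        · -- b ≥ 1
          obtain ⟨b', rfl⟩ : ∃ b', b = b' + 1 := ⟨b - 1, by omega⟩
          set S' : ℤ := ∑ i ∈ range (n + 1), (p:ℤ) ^ i with hS'def
          have hSS' : S = 1 + p * S' := by
            rw [hSdef, sum_range_succ', hS'def, mul_sum]
            simp only [pow_zero]
            rw [add_comm]
            congr 1
            apply sum_congr rfl
            intro i _
            ring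
          have e1 : (p:ℤ) * (A * S' - x * (p:ℤ) ^ b') = 1 + y - A := by
            rw [hSS'] at hAeq
            linear_combination hAeq
          have e2 : A * S' - x * (p:ℤ) ^ b' = 0 := by
            have a1 : (p:ℤ) * (A * S' - x * (p:ℤ) ^ b') < p * 1 := by rw [e1]; linarith
            have a2 : (p:ℤ) * (-1) < p * (A * S' - x * (p:ℤ) ^ b') := by rw [e1]; linarith
            have b1 := lt_of_mul_lt_mul_left a1 (by linarith)
            have b2 := lt_of_mul_lt_mul_left a2 (by linarith)
            omega
          have e3 : A = 1 + y := by rw [e2] at e1; linarith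
          have e4 : (1 + y) * S' = x * (p:ℤ) ^ b' := by rw [← e3]; linarith
          rcases Nat.eq_zero_or_pos c with hc0 | hc1
          · -- y = 1
            have hy1 : y = 1 := by rw [hydef, hc0]; simp
            obtain ⟨w, hw⟩ := h2y
            rw [e3, hy1, hr] at hw
            omega
          · have hyev : (2:ℤ) ∣ y := dvd_pow_self 2 (by omega)
            -- b' = 0
            have hS'1 : ∃ z, S' = 1 + p * z := by
              refine ⟨∑ i ∈ range n, (p:ℤ) ^ i, ?_⟩
              rw [hS'def, sum_range_succ', mul_sum]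
              simp only [pow_zero]
              rw [add_comm]
              congr 1
              apply sum_congr rfl
              intro i _
              ring
            obtain ⟨z, hz⟩ := hS'1
            have hpi : Prime (p:ℤ) := Nat.prime_iff_prime_int.1 hp
            have hb'0 : b' = 0 := by
              by_contra hcon
              have : (p:ℤ) ∣ (1 + y) * S' := by
                rw [e4]; exact Dvd.dvd.mul_left (dvd_pow_self _ hcon) _
              rcases hpi.dvd_or_dvd this with h5 | h5
              · have := Int.le_of_dvd (by linarith) h5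
                linarith
              · rw [hz] at h5
                have h6 : (p:ℤ) ∣ 1 := by
                  have := dvd_sub h5 (Dvd.intro z rfl : (p:ℤ) ∣ p * z)
                  simpa using this
                have := Int.le_of_dvd (by norm_num) h6
                linarith
            subst hb'0
            simp only [pow_zero, mul_one] at e4
            -- 1 + y divides 2^a
            have h5 : (1 + y) ∣ (2:ℤ) ^ a := ⟨S', e4.symm⟩
            have h6 : (1 + 2 ^ c : ℕ) ∣ 2 ^ a := by
              have : (((1 + 2 ^ c : ℕ)):ℤ) ∣ ((2 ^ a : ℕ):ℤ) := by push_cast; exact h5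
              exact_mod_cast this
            obtain ⟨j, hj, hj'⟩ := (Nat.dvd_prime_pow Nat.prime_two).1 h6
            have h7 : 2 ∣ 2 ^ c := dvd_pow_self 2 (by omega)
            rcases Nat.eq_zero_or_pos j with hj0 | hj1
            · rw [hj0] at hj'
              have : 0 < 2 ^ c := by positivity
              omega
            · have h8 : 2 ∣ 2 ^ j := dvd_pow_self 2 (by omega)
              omega
      · rcases Nat.lt_or_ge b (n + 2) with hb2 | hb2
        · -- b = n + 1
          have hb3 : b = n + 1 := by omega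
          subst hb3
          obtain ⟨t, ht⟩ : ∃ t, t = (p:ℤ) * (X - p) - (p - 1) * x - (p - 1) * p * y := ⟨_, rfl⟩
          have htQ : t * (p:ℤ) ^ (n + 1) = X - 1 := by
            rw [ht]
            have e1 : (p:ℤ) ^ (n + 2) = p * p ^ (n + 1) := by ring
            rw [e1] at hM
            linear_combination hM
          have hQ0 : (0:ℤ) < (p:ℤ) ^ (n + 1) := by positivity
          have ht0 : 0 < t := by
            have : 0 < t * (p:ℤ) ^ (n + 1) := by rw [htQ]; linarith
            exact (pos_iff_pos_of_mul_pos this).2 hQ0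
          have hteq : t + (p:ℤ) ^ 2 = p * X - (p - 1) * x - p * (p - 1) * y := by rw [ht]; ring
          rcases Nat.lt_or_ge n 2 with hn2 | hn2
          · have hn1 : n = 1 := by omega
            subst hn1
            have hcomp : x ∣ y ∨ 2 * y ∣ x := by
              rcases le_or_gt a c with h' | h'
              · left; exact pow_dvd_pow 2 h'
              · right; exact two_mul_pow_dvd' h'
            refine caseA2_eq3 (p:ℤ) t X x y (2 ^ (k - c)) hp3 hpo hx hy hcomp hxX ?_
              (by positivity) ?_ h4X ?_ ht0 ?_ hteq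
            · rw [hXdef, hydef, ← pow_succ', ← pow_add]; congr 1; omega
            · intro h'
              rcases pow_one_or_even (k - c) with h'' | h''
              · rw [h''] at h'; linarith
              · rw [← h'] at h''
                obtain ⟨w, hw⟩ := h''
                omega
            · intro h'
              rw [hr] at h'; omega
            · exact htQ
          · have hQ : (p:ℤ) ^ 3 ≤ (p:ℤ) ^ (n + 1) := pow_le_pow_right₀ (by linarith) (by omega)
            have hcomp : x ∣ y ∨ y ∣ x := by
              rcases le_total a c with h' | h'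
              · left; exact pow_dvd_pow 2 h'
              · right; exact pow_dvd_pow 2 h'
            exact caseA2_ge4 (p:ℤ) t _ X x y hp3 hpo hQ hx hy hcomp hxX hyX hX0 ht0 htQ hteq
        · -- b = n + 2
          rcases hbe with hbe | ⟨hbe, hac⟩
          · omega
          · subst hbe
            obtain ⟨t, ht⟩ : ∃ t, t = X - (p:ℤ) - (p - 1) * (x + y) := ⟨_, rfl⟩
            have htQ : t * (p:ℤ) ^ (n + 2) = X - 1 := by
              rw [ht]
              linear_combination hM
            have hQ0 : (0:ℤ) < (p:ℤ) ^ (n + 2) := by positivity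
            have ht0 : 0 < t := by
              have : 0 < t * (p:ℤ) ^ (n + 2) := by rw [htQ]; linarith
              exact (pos_iff_pos_of_mul_pos this).2 hQ0
            have hQ : (p:ℤ) ^ 3 ≤ (p:ℤ) ^ (n + 2) := pow_le_pow_right₀ (by linarith) (by omega)
            exact caseA1 (p:ℤ) t _ X x y hp3 hpo hQ hx hy (two_mul_pow_dvd' hac) hyX ht0 htQ
              (by rw [ht]; ring)

end Pool.Agent.Hhelper81.TwoNearPerfectMain
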