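import Mathlib
import Pool.Agent.Hhelper81.TwoNearPerfectMain

namespace Pool.Agent.Hhelper81.TwoNearPerfectTwo

open Finset Pool.Agent.Hhelper81.TwoNearPerfectAux Pool.Agent.Hhelper81.TwoNearPerfectMain

lemma main_eq2 (p : ℕ) (hp : p.Prime) (hodd : Odd p) (k a b c e : ℕ)
    (ha : a ≤ k) (hc : c ≤ k) (hbe : b < e ∨ (b = e ∧ a < c)) (hem : e ≤ 2)
    (h : ((2:ℤ) ^ (k + 1) - p) * (∑ i ∈ range 2, (p:ℤ) ^ i)
      = 1 + 2 ^ a * p ^ b + 2 ^ c * p ^ e) :
    ((p:ℤ) = 3 ∧ (2:ℤ) ^ (k + 1) = 4) ∨ ((p:ℤ) = 3 ∧ (2:ℤ) ^ (k + 1) = 8) ∨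
      ((p:ℤ) = 5 ∧ (2:ℤ) ^ (k + 1) = 16) := by
  have hp3n : 3 ≤ p := by
    have := hp.two_le
    rcases hodd with ⟨r, hr⟩
    omega
  have hp3 : (3:ℤ) ≤ p := by exact_mod_cast hp3n
  have hpo : Odd (p:ℤ) := by exact_mod_cast hodd
  obtain ⟨r, hr⟩ := id hpo
  have hS : ∑ i ∈ range 2, (p:ℤ) ^ i = p + 1 := by
    simp [sum_range_succ]; ring
  rw [hS] at h
  set X : ℤ := (2:ℤ) ^ (k + 1) with hXdef
  set x : ℤ := (2:ℤ) ^ a with hxdef
  set y : ℤ := (2:ℤ) ^ c with hydef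
  have hx : 0 < x := by positivity
  have hy : 0 < y := by positivity
  have hX0 : 0 < X := by positivity
  have hxX : 2 * x ∣ X := two_mul_pow_dvd ha
  have hyX : 2 * y ∣ X := two_mul_pow_dvd hc
  have hxX' : 2 * x ≤ X := Int.le_of_dvd hX0 hxX
  have hyX' : 2 * y ≤ X := Int.le_of_dvd hX0 hyX
  have hX2 : (2:ℤ) ∣ X := dvd_pow_self 2 (by omega)
  have hXp : (p:ℤ) + 1 ≤ X := by
    have hpos : 0 < (X - p) * (p + 1) := by rw [h]; positivity
    have := (pos_iff_pos_of_mul_pos hpos).2 (by linarith)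
    linarith
  have hk1 : 1 ≤ k := by
    by_contra hcon
    have : k = 0 := by omega
    rw [hXdef, this] at hXp
    norm_num at hXp
    linarith
  have h4X : (4:ℤ) ∣ X := by
    have : (4:ℤ) = 2 ^ 2 := by norm_num
    rw [this]; exact pow_dvd_pow 2 (by omega)
  have hx1 : x = 1 ∨ 2 ∣ x := pow_one_or_even a
  have hy1 : y = 1 ∨ 2 ∣ y := pow_one_or_even c
  interval_cases e
  · -- e = 0
    rcases hbe with hbe | ⟨hbe, hac⟩
    · omega
    · subst hbe
      have hxy : 2 * x ≤ y := Int.le_of_dvd hy (two_mul_pow_dvd' hac)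
      left
      exact two_00 (p:ℤ) X x y hp3 hxy hyX' hXp (by rw [h]; ring)
  · rcases hbe with hbe | ⟨hbe, hac⟩
    · have : b = 0 := by omega
      subst this
      exfalso
      exact two_01 (p:ℤ) X x y hp3 hpo hx hxX' hy1 hx1 hyX' h4X hXp (by rw [h]; ring)
    · subst hbe
      exfalso
      exact two_11 (p:ℤ) X x y hp3 hpo hx (two_mul_pow_dvd' hac) hy hx1 hyX' hX2
        (by rw [h]; ring)
  · rcases hbe with hbe | ⟨hbe, hac⟩
    · interval_cases b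
      · right; left
        exact two_02 (p:ℤ) X x y hp3 hpo hx hy hxX' hy1 hx1 hyX h4X (by rw [h]; ring)
      · right; right
        refine two_12 (p:ℤ) X x y (2 ^ (k - a)) hp3 hpo hx hy ?_ (by positivity) hy1 hx1 hyX
          (by rw [h]; ring)
        rw [hXdef, hxdef, ← pow_succ', ← pow_add]; congr 1; omega
    · subst hbe
      exfalso
      exact two_22 (p:ℤ) X x y hp3 hpo hx hy (two_mul_pow_dvd' hac) hx1 hyX h4X
        (by rw [h])

end Pool.Agent.Hhelper81.TwoNearPerfectTwo
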